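import Pool.Agent.W_MP_4b1b5d_h66.SmoothRing

set_option autoImplicit false

/-!
# A periodic function on the plane with non-degenerate critical points has a saddle
-/

namespace Pool.Agent.W_MP_4b1b5d_h66

open MeasureTheory Set

/-- Periodic smooth functions. -/
def Per (f : Sm) : Prop :=
  ∀ (x : Fin 2 → ℝ) (k : Fin 2 → ℤ), (f : (Fin 2 → ℝ) → ℝ) (x + fun i => (k i : ℝ))
    = (f : (Fin 2 → ℝ) → ℝ) x

lemma Per.par {f : Sm} (h : Per f) (i : Fin 2) : Per (par i f) := by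
  intro x k
  rw [par_apply, par_apply]
  have e : (f : (Fin 2 → ℝ) → ℝ) = fun y => (f : (Fin 2 → ℝ) → ℝ) (y + fun i => (k i : ℝ)) := by
    funext y; exact (h y k).symm
  conv_rhs => rw [e]
  rw [fderiv_comp_add_right]

/-- Composition with a smooth function of one variable. -/
def cmp (φ : ℝ → ℝ) (hφ : ContDiff ℝ (⊤ : ℕ∞) φ) (f : Sm) : Sm :=
  ⟨fun x => φ ((f : (Fin 2 → ℝ) → ℝ) x), hφ.comp (sm_contDiff f)⟩

lemma deriv_smooth {φ : ℝ → ℝ} (hφ : ContDiff ℝ (⊤ : ℕ∞) φ) : ContDiff ℝ (⊤ : ℕ∞) (deriv φ) :=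
  (contDiff_infty_iff_deriv.mp hφ).2

lemma par_cmp (φ : ℝ → ℝ) (hφ : ContDiff ℝ (⊤ : ℕ∞) φ) (f : Sm) (i : Fin 2) :
    par i (cmp φ hφ f) = cmp (deriv φ) (deriv_smooth hφ) f * par i f := by
  apply Subtype.ext
  funext x
  show fderiv ℝ (fun y => φ ((f : (Fin 2 → ℝ) → ℝ) y)) x (Pi.single i 1)
    = deriv φ ((f : (Fin 2 → ℝ) → ℝ) x) * fderiv ℝ (f : (Fin 2 → ℝ) → ℝ) x (Pi.single i 1)
  have h1 : HasDerivAt φ (deriv φ ((f : (Fin 2 → ℝ) → ℝ) x)) ((f : (Fin 2 → ℝ) → ℝ) x) :=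
    ((contDiff_infty_iff_deriv.mp hφ).1 _).hasDerivAt
  have h2 := h1.comp_hasFDerivAt x ((sm_diff f x).hasFDerivAt)
  have h3 : HasFDerivAt (fun y => φ ((f : (Fin 2 → ℝ) → ℝ) y))
    (deriv φ ((f : (Fin 2 → ℝ) → ℝ) x) • fderiv ℝ (f : (Fin 2 → ℝ) → ℝ) x) x := h2
  rw [h3.fderiv]
  rfl

lemma per_cmp (φ : ℝ → ℝ) (hφ : ContDiff ℝ (⊤ : ℕ∞) φ) {f : Sm} (h : Per f) :
    Per (cmp φ hφ f) := by
  intro x k
  show φ _ = φ _
  rw [h x k]

lemma sm_mul (f g : Sm) (x : Fin 2 → ℝ) :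
    ((f * g : Sm) : (Fin 2 → ℝ) → ℝ) x = (f : (Fin 2 → ℝ) → ℝ) x * (g : (Fin 2 → ℝ) → ℝ) x := rfl

lemma sm_sub (f g : Sm) (x : Fin 2 → ℝ) :
    ((f - g : Sm) : (Fin 2 → ℝ) → ℝ) x = (f : (Fin 2 → ℝ) → ℝ) x - (g : (Fin 2 → ℝ) → ℝ) x := rfl

lemma sm_neg (f : Sm) (x : Fin 2 → ℝ) :
    ((-f : Sm) : (Fin 2 → ℝ) → ℝ) x = - (f : (Fin 2 → ℝ) → ℝ) x := rfl

lemma Per.mul {f g : Sm} (hf : Per f) (hg : Per g) : Per (f * g) := by
  intro x k
  rw [sm_mul, sm_mul, hf x k, hg x k]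

/-- The integral of a divergence of a periodic field over a unit box vanishes. -/
lemma integral_div (A : Fin 2 → Sm) (hA : ∀ i, Per (A i)) (a : Fin 2 → ℝ) :
    ∫ x in Icc a (a + 1), ∑ i, (par i (A i) : (Fin 2 → ℝ) → ℝ) x = 0 := by
  have hle : a ≤ a + 1 := by
    intro i
    simp
  have h := integral_divergence_of_hasFDerivAt_off_countable' (n := 1) a (a + 1) hle
    (fun i => (A i : (Fin 2 → ℝ) → ℝ)) (fun i x => fderiv ℝ (A i : (Fin 2 → ℝ) → ℝ) x) ∅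
    Set.countable_empty (fun i => (sm_contDiff (A i)).continuous.continuousOn)
    (fun x _ i => (sm_diff (A i) x).hasFDerivAt)
    (by
      apply ContinuousOn.integrableOn_compact isCompact_Icc
      refine continuousOn_finset_sum _ (fun i _ => ?_)
      exact (sm_contDiff (par i (A i))).continuous.continuousOn)
  have h2 : (∫ x in Icc a (a + 1), ∑ i, (par i (A i) : (Fin 2 → ℝ) → ℝ) x)
      = ∫ x in Icc a (a + 1), ∑ i, fderiv ℝ (A i : (Fin 2 → ℝ) → ℝ) x (Pi.single i 1) := rfl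
  rw [h2, h]
  apply Finset.sum_eq_zero
  intro i _
  have e : ∀ x : Fin 1 → ℝ, (A i : (Fin 2 → ℝ) → ℝ) (i.insertNth ((a + 1) i) x)
      = (A i : (Fin 2 → ℝ) → ℝ) (i.insertNth (a i) x) := by
    intro x
    rw [← hA i (i.insertNth (a i) x) (Pi.single i 1)]
    refine congrArg _ ?_
    funext j
    rcases Fin.eq_self_or_eq_succAbove i j with rfl | ⟨j, rfl⟩
    · simp
    · simp
  simp only [e]
  exact sub_self _

theorem exists_saddle (U : Sm) (hU : Per U)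
    (hM : ∀ x, (par 0 U : (Fin 2 → ℝ) → ℝ) x = 0 → (par 1 U : (Fin 2 → ℝ) → ℝ) x = 0 →
      ((par 0 (par 0 U) * par 1 (par 1 U) - par 0 (par 1 U) * par 0 (par 1 U) : Sm) :
        (Fin 2 → ℝ) → ℝ) x ≠ 0) :
    ∃ x, (par 0 U : (Fin 2 → ℝ) → ℝ) x = 0 ∧ (par 1 U : (Fin 2 → ℝ) → ℝ) x = 0 ∧
      ((par 0 (par 0 U) * par 1 (par 1 U) - par 0 (par 1 U) * par 0 (par 1 U) : Sm) :
        (Fin 2 → ℝ) → ℝ) x < 0 := by
  by_contra hcon
  set D : Sm := par 0 (par 0 U) * par 1 (par 1 U) - par 0 (par 1 U) * par 0 (par 1 U) with hD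
  have hpos : ∀ x, (par 0 U : (Fin 2 → ℝ) → ℝ) x = 0 → (par 1 U : (Fin 2 → ℝ) → ℝ) x = 0 →
      0 < (D : (Fin 2 → ℝ) → ℝ) x := by
    intro x h0 h1
    rcases lt_trichotomy ((D : (Fin 2 → ℝ) → ℝ) x) 0 with h | h | h
    · exact absurd ⟨x, h0, h1, h⟩ hcon
    · exact absurd h (hM x h0 h1)
    · exact h
  have hDper : Per D := by
    intro x k
    have h00 := (hU.par 0).par 0 x k
    have h11 := (hU.par 1).par 1 x k
    have h01 := (hU.par 1).par 0 x k
    rw [hD, sm_sub, sm_sub, sm_mul, sm_mul, sm_mul, sm_mul, h00, h11, h01]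
  -- reduction to the unit square
  have hred : ∀ x : Fin 2 → ℝ, ∃ y ∈ Icc (0 : Fin 2 → ℝ) 1, ∃ k : Fin 2 → ℤ,
      x = y + fun i => (k i : ℝ) := by
    intro x
    refine ⟨fun i => Int.fract (x i), ⟨fun i => Int.fract_nonneg _, fun i =>
      (Int.fract_lt_one _).le⟩, fun i => ⌊x i⌋, ?_⟩
    ext i
    exact (Int.fract_add_floor (x i)).symm
  -- the size of the gradient
  let gr : (Fin 2 → ℝ) → ℝ := fun x => |(par 0 U : (Fin 2 → ℝ) → ℝ) x|
    + |(par 1 U : (Fin 2 → ℝ) → ℝ) x|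
  have hgrc : Continuous gr := ((sm_contDiff (par 0 U)).continuous.abs).add
    ((sm_contDiff (par 1 U)).continuous.abs)
  have hgrper : ∀ (x : Fin 2 → ℝ) (k : Fin 2 → ℤ), gr (x + fun i => (k i : ℝ)) = gr x := by
    intro x k
    show |_| + |_| = |_| + |_|
    rw [hU.par 0 x k, hU.par 1 x k]
  obtain ⟨ε, hε, hεD⟩ : ∃ ε : ℝ, 0 < ε ∧ ∀ x, gr x < ε → 0 < (D : (Fin 2 → ℝ) → ℝ) x := by
    have hK : IsCompact (Icc (0 : Fin 2 → ℝ) 1 ∩ {x | (D : (Fin 2 → ℝ) → ℝ) x ≤ 0}) :=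
      isCompact_Icc.inter_right (isClosed_le (sm_contDiff D).continuous continuous_const)
    rcases (Icc (0 : Fin 2 → ℝ) 1 ∩ {x | (D : (Fin 2 → ℝ) → ℝ) x ≤ 0}).eq_empty_or_nonempty
      with hemp | hne
    · refine ⟨1, one_pos, fun x _ => ?_⟩
      obtain ⟨y, hy, k, rfl⟩ := hred x
      rw [hDper]
      by_contra hcon2
      have : y ∈ Icc (0 : Fin 2 → ℝ) 1 ∩ {x | (D : (Fin 2 → ℝ) → ℝ) x ≤ 0} :=
        ⟨hy, not_lt.mp hcon2⟩
      rw [hemp] at this
      exact this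
    · obtain ⟨z, hz, hmin⟩ := hK.exists_isMinOn hne hgrc.continuousOn
      have hz0 : 0 < gr z := by
        rcases (show 0 ≤ gr z from by positivity).lt_or_eq with h | h
        · exact h
        · exfalso
          have h0 : |(par 0 U : (Fin 2 → ℝ) → ℝ) z| = 0 := by
            have h2 := abs_nonneg ((par 1 U : (Fin 2 → ℝ) → ℝ) z)
            have h3 := abs_nonneg ((par 0 U : (Fin 2 → ℝ) → ℝ) z)
            have h4 : 0 = |(par 0 U : (Fin 2 → ℝ) → ℝ) z| + |(par 1 U : (Fin 2 → ℝ) → ℝ) z| := h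
            linarith
          have h1 : |(par 1 U : (Fin 2 → ℝ) → ℝ) z| = 0 := by
            have h4 : 0 = |(par 0 U : (Fin 2 → ℝ) → ℝ) z| + |(par 1 U : (Fin 2 → ℝ) → ℝ) z| := h
            linarith
          have := hpos z (abs_eq_zero.mp h0) (abs_eq_zero.mp h1)
          exact absurd hz.2 (not_le.mpr this)
      refine ⟨gr z, hz0, fun x hx => ?_⟩
      obtain ⟨y, hy, k, rfl⟩ := hred x
      rw [hDper]
      rw [hgrper] at hx
      by_contra hcon2
      have h5 : y ∈ Icc (0 : Fin 2 → ℝ) 1 ∩ {x | (D : (Fin 2 → ℝ) → ℝ) x ≤ 0} :=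
        ⟨hy, not_lt.mp hcon2⟩
      exact absurd (hmin h5) (not_le.mpr hx)
  -- a global minimum
  obtain ⟨a, ha⟩ : ∃ a : Fin 2 → ℝ, ∀ x, (U : (Fin 2 → ℝ) → ℝ) a ≤ (U : (Fin 2 → ℝ) → ℝ) x := by
    obtain ⟨a, -, hmin⟩ := (isCompact_Icc (a := (0 : Fin 2 → ℝ)) (b := 1)).exists_isMinOn
      ⟨0, left_mem_Icc.mpr zero_le_one⟩ (sm_contDiff U).continuous.continuousOn
    refine ⟨a, fun x => ?_⟩
    obtain ⟨y, hy, k, rfl⟩ := hred x
    rw [hU]
    exact hmin hy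
  have hda : fderiv ℝ (U : (Fin 2 → ℝ) → ℝ) a = 0 :=
    IsLocalMin.fderiv_eq_zero (Filter.Eventually.of_forall ha)
  have ha0 : ∀ i, (par i U : (Fin 2 → ℝ) → ℝ) a = 0 := by
    intro i
    rw [par_apply, hda]
    rfl
  -- the bump function
  let χb : ContDiffBump (0 : ℝ) := ⟨ε / 4, ε / 2, by linarith, by linarith⟩
  let χ : ℝ → ℝ := χb
  have hχs : ContDiff ℝ (⊤ : ℕ∞) χ := χb.contDiff
  have hχ0 : ∀ t, 0 ≤ χ t := fun t => χb.nonneg
  have hχ1 : χ 0 = 1 := χb.one_of_mem_closedBall (by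
    rw [Metric.mem_closedBall, dist_self]; exact (div_pos hε four_pos).le)
  have hχ2 : ∀ t, ε / 2 ≤ |t| → χ t = 0 := by
    intro t ht
    apply χb.zero_of_le_dist
    rw [Real.dist_eq, sub_zero]
    exact ht
  let X : ℝ → ℝ := fun t => ∫ s in (0 : ℝ)..t, χ s
  have hXd : ∀ t, HasDerivAt X (χ t) t := fun t =>
    intervalIntegral.integral_hasDerivAt_right (hχs.continuous.intervalIntegrable _ _)
      (hχs.continuous.stronglyMeasurableAtFilter _ _) hχs.continuous.continuousAt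
  have hXder : deriv X = χ := by
    funext t
    exact (hXd t).deriv
  have hXs : ContDiff ℝ (⊤ : ℕ∞) X :=
    contDiff_infty_iff_deriv.mpr ⟨fun t => (hXd t).differentiableAt, by rw [hXder]; exact hχs⟩
  -- the fields
  let XU : Sm := cmp X hXs (par 0 U)
  let χU : Sm := cmp χ hχs (par 1 U)
  let A : Fin 2 → Sm := ![XU * χU * par 1 (par 1 U), - (XU * χU * par 0 (par 1 U))]
  have hXUper : Per XU := per_cmp X hXs (hU.par 0)
  have hχUper : Per χU := per_cmp χ hχs (hU.par 1)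
  have hAper : ∀ i, Per (A i) := by
    intro i
    fin_cases i
    · exact (hXUper.mul hχUper).mul ((hU.par 1).par 1)
    · intro x k
      have := ((hXUper.mul hχUper).mul ((hU.par 1).par 0)) x k
      show -_ = -_
      exact congrArg Neg.neg this
  have key : par 0 (A 0) + par 1 (A 1) = cmp χ hχs (par 0 U) * χU * D := by
    show par 0 (XU * χU * par 1 (par 1 U)) + par 1 (- (XU * χU * par 0 (par 1 U))) = _
    have e1 : ∀ i, par i XU = cmp χ hχs (par 0 U) * par i (par 0 U) := by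
      intro i
      show par i (cmp X hXs (par 0 U)) = _
      rw [par_cmp]
      congr 1
      apply Subtype.ext
      funext x
      show deriv X _ = χ _
      rw [hXder]
    have e2 : ∀ i, par i χU = cmp (deriv χ) (deriv_smooth hχs) (par 1 U) * par i (par 1 U) := by
      intro i
      show par i (cmp χ hχs (par 1 U)) = _
      rw [par_cmp]
    rw [map_neg]
    simp only [Derivation.leibniz, smul_eq_mul, e1, e2]
    rw [par_comm 1 0 U, par_comm 1 0 (par 1 U), hD]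
    ring
  have hint := integral_div A hAper (a - fun _ => 1 / 2)
  let f : (Fin 2 → ℝ) → ℝ := fun x => ((cmp χ hχs (par 0 U) * χU * D : Sm) : (Fin 2 → ℝ) → ℝ) x
  have hf : (fun x => ∑ i, (par i (A i) : (Fin 2 → ℝ) → ℝ) x) = f := by
    funext x
    show _ = ((cmp χ hχs (par 0 U) * χU * D : Sm) : (Fin 2 → ℝ) → ℝ) x
    rw [Fin.sum_univ_two, ← key]
    rfl
  have hfc : Continuous f := (sm_contDiff _).continuous
  have hfe : ∀ x, f x = χ ((par 0 U : (Fin 2 → ℝ) → ℝ) x) * χ ((par 1 U : (Fin 2 → ℝ) → ℝ) x)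
      * (D : (Fin 2 → ℝ) → ℝ) x := fun x => rfl
  have hf0 : ∀ x, 0 ≤ f x := by
    intro x
    rw [hfe]
    by_cases h0 : ε / 2 ≤ |(par 0 U : (Fin 2 → ℝ) → ℝ) x|
    · rw [hχ2 _ h0]; simp
    · by_cases h1 : ε / 2 ≤ |(par 1 U : (Fin 2 → ℝ) → ℝ) x|
      · rw [hχ2 _ h1]; simp
      · have : gr x < ε := by
          show |_| + |_| < ε
          rw [not_le] at h0 h1
          linarith
        exact mul_nonneg (mul_nonneg (hχ0 _) (hχ0 _)) (hεD x this).le
  have hfa : 0 < f a := by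
    rw [hfe, ha0, ha0, hχ1, one_mul, one_mul]
    exact hpos a (ha0 0) (ha0 1)
  set b : Fin 2 → ℝ := a - fun _ => 1 / 2 with hb
  have hposint : 0 < ∫ x in Icc b (b + 1), f x := by
    rw [setIntegral_pos_iff_support_of_nonneg_ae (Filter.Eventually.of_forall hf0)
      (hfc.continuousOn.integrableOn_compact isCompact_Icc)]
    have hopen : IsOpen (Function.support f ∩ (Set.pi univ fun i => Ioo (b i) (b i + 1))) := by
      apply IsOpen.inter hfc.isOpen_support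
      exact isOpen_set_pi Set.finite_univ (fun i _ => isOpen_Ioo)
    have hne : (Function.support f ∩ (Set.pi univ fun i => Ioo (b i) (b i + 1))).Nonempty := by
      refine ⟨a, hfa.ne', fun i _ => ?_⟩
      show b i < a i ∧ a i < b i + 1
      rw [hb]
      simp only [Pi.sub_apply]
      constructor <;> linarith
    refine lt_of_lt_of_le (hopen.measure_pos volume hne) (measure_mono ?_)
    rintro x ⟨h1, h2⟩
    refine ⟨h1, fun i => ?_, fun i => ?_⟩
    · exact (h2 i (Set.mem_univ i)).1.le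
    · exact (h2 i (Set.mem_univ i)).2.le
  rw [hf] at hint
  exact absurd hint hposint.ne'

end Pool.Agent.W_MP_4b1b5d_h66
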