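import Mathlib

set_option autoImplicit false

/-!
# Killing type systems are of finite type (abstract algebra)

`Y false`, `Y true` are two derivations of a commutative ring whose commutator is a linear
combination of them, and `k 0, …, k n` satisfy the system
`Y false (k (b+1)) + Y true (k b) ∈ (k 0, …, k n)`.  Then the ideal generated by all words of
length at most `n` applied to the `k a` is stable under both derivations.
-/

namespace Pool.Agent.W_MP_4b1b5d_h66

variable {A : Type*} [CommRing A] (Y : Bool → Derivation ℤ A A) (k : ℕ → A) (n : ℕ)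

/-- A word in the two derivations. -/
def word (w : List Bool) (h : A) : A := w.foldr (fun b x => Y b x) h

/-- The ideal generated by the words of length at most `m` applied to `k 0, …, k n`. -/
def Dm (m : ℕ) : Ideal A :=
  Ideal.span {g | ∃ w : List Bool, ∃ a, w.length ≤ m ∧ a ≤ n ∧ g = word Y w (k a)}

lemma Dm_mono {m m' : ℕ} (h : m ≤ m') : Dm Y k n m ≤ Dm Y k n m' := by
  apply Ideal.span_mono
  rintro g ⟨w, a, hw, ha, rfl⟩
  exact ⟨w, a, hw.trans h, ha, rfl⟩

lemma word_mem {w : List Bool} {a m : ℕ} (hw : w.length ≤ m) (ha : a ≤ n) :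
    word Y w (k a) ∈ Dm Y k n m := Ideal.subset_span ⟨w, a, hw, ha, rfl⟩

lemma Dm_step {m : ℕ} {h : A} (hh : h ∈ Dm Y k n m) (b : Bool) : Y b h ∈ Dm Y k n (m + 1) := by
  refine Submodule.span_induction (p := fun x _ => Y b x ∈ Dm Y k n (m + 1)) ?_ ?_ ?_ ?_ hh
  · rintro g ⟨w, a, hw, ha, rfl⟩
    have : Y b (word Y w (k a)) = word Y (b :: w) (k a) := rfl
    rw [this]
    exact word_mem Y k n (by simp; omega) ha
  · rw [map_zero]; exact zero_mem _
  · intro x y _ _ hx hy
    rw [map_add]; exact add_mem hx hy
  · intro a x hx hYx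
    rw [smul_eq_mul, Derivation.leibniz, smul_eq_mul, smul_eq_mul]
    exact add_mem (Ideal.mul_mem_left _ _ hYx)
      (Ideal.mul_mem_right _ _ (Dm_mono Y k n (Nat.le_succ m) hx))

lemma Dm_iter {m : ℕ} {h : A} (hh : h ∈ Dm Y k n m) (b : Bool) (j : ℕ) :
    (Y b)^[j] h ∈ Dm Y k n (m + j) := by
  induction j with
  | zero => exact hh
  | succ j ih =>
    rw [Function.iterate_succ_apply']
    exact Dm_step Y k n ih b

/-- The commutator hypothesis. -/
def Comm : Prop := ∃ f : Bool → A, ∀ h, Y true (Y false h) - Y false (Y true h)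
  = f true * Y true h + f false * Y false h

variable {Y}

lemma Dm_comm (hc : Comm Y) {m : ℕ} {h : A} (hh : h ∈ Dm Y k n m) (b b' : Bool) :
    Y b (Y b' h) - Y b' (Y b h) ∈ Dm Y k n (m + 1) := by
  obtain ⟨f, hf⟩ := hc
  have h1 : Y true (Y false h) - Y false (Y true h) ∈ Dm Y k n (m + 1) := by
    rw [hf]
    exact add_mem (Ideal.mul_mem_left _ _ (Dm_step Y k n hh _))
      (Ideal.mul_mem_left _ _ (Dm_step Y k n hh _))
  cases b <;> cases b'
  · rw [sub_self]; exact zero_mem _
  · rw [← neg_sub]; exact neg_mem h1
  · exact h1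
  · rw [sub_self]; exact zero_mem _

lemma Dm_comm_iter (hc : Comm Y) {m : ℕ} {h : A} (hh : h ∈ Dm Y k n m) (b b' : Bool) (j : ℕ) :
    (Y b)^[j] (Y b' h) - Y b' ((Y b)^[j] h) ∈ Dm Y k n (m + j) := by
  induction j with
  | zero => simp
  | succ j ih =>
    rw [Function.iterate_succ_apply', Function.iterate_succ_apply']
    have e : Y b ((Y b)^[j] (Y b' h)) - Y b' (Y b ((Y b)^[j] h))
        = Y b ((Y b)^[j] (Y b' h) - Y b' ((Y b)^[j] h))
          + (Y b (Y b' ((Y b)^[j] h)) - Y b' (Y b ((Y b)^[j] h))) := by
      rw [map_sub]; ring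
    rw [e]
    exact add_mem (Dm_step Y k n ih b) (Dm_comm k n hc (Dm_iter Y k n hh b j) b b')

lemma chain (hc : Comm Y) (b b' : Bool) (κ : ℕ → A) (hκ : ∀ j ≤ n, κ j ∈ Dm Y k n 0)
    (h0 : Y b (κ 0) ∈ Dm Y k n 0) (hs : ∀ j < n, Y b (κ (j + 1)) + Y b' (κ j) ∈ Dm Y k n 0)
    (j : ℕ) (hj : j ≤ n) : (Y b)^[j + 1] (κ j) ∈ Dm Y k n j := by
  induction j with
  | zero => simpa using h0
  | succ j ih =>
    have hjn : j < n := hj
    have ih' := ih hjn.le
    have hk := hκ j hjn.le
    rw [Function.iterate_succ_apply]
    have e : Y b (κ (j + 1)) = (Y b (κ (j + 1)) + Y b' (κ j)) - Y b' (κ j) := by ring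
    have hsub : ∀ (i : ℕ) (x y : A), (Y b)^[i] (x - y) = (Y b)^[i] x - (Y b)^[i] y := by
      intro i
      induction i with
      | zero => intro x y; rfl
      | succ i ihi =>
        intro x y
        rw [Function.iterate_succ_apply, map_sub, ihi, Function.iterate_succ_apply,
          Function.iterate_succ_apply]
    rw [e, hsub]
    have h1 := Dm_iter Y k n (hs j hjn) b (j + 1)
    rw [zero_add] at h1
    have h2 := Dm_comm_iter k n hc hk b b' (j + 1)
    rw [zero_add] at h2
    have h3 := Dm_step Y k n ih' b'
    have h4 := add_mem h2 h3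
    rw [sub_add_cancel] at h4
    exact sub_mem h1 h4

lemma reorder (hc : Comm Y) (a : ℕ) (ha : a ≤ n) (w : List Bool) (m : ℕ)
    (hw : w.length ≤ m + 1) :
    word Y w (k a) - (Y true)^[w.count true] ((Y false)^[w.count false] (k a))
      ∈ Dm Y k n m := by
  induction w generalizing m with
  | nil => simp [word]
  | cons b w ih =>
    have hw' : w.length ≤ m := by simpa using hw
    have hword : word Y (b :: w) (k a) = Y b (word Y w (k a)) := rfl
    rw [hword]
    rcases m with _ | m
    · have : w = [] := List.length_eq_zero_iff.mp (by omega)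
      subst this
      cases b <;> simp [word]
    · have hr := ih m hw'
      set Z := (Y true)^[w.count true] ((Y false)^[w.count false] (k a)) with hZ
      have h1 := Dm_step Y k n hr b
      rw [map_sub] at h1
      have hg : (Y false)^[w.count false] (k a) ∈ Dm Y k n (w.count false) := by
        have := Dm_iter Y k n (word_mem Y k n (w := []) (m := 0) (by simp) ha) false
          (w.count false)
        rw [zero_add] at this
        exact this
      have hlen : w.count true + w.count false = w.length := List.count_true_add_count_false w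
      cases b with
      | true =>
        rw [List.count_cons_self, List.count_cons_of_ne (by decide),
          Function.iterate_succ_apply']
        exact h1
      | false =>
        rw [List.count_cons_self, List.count_cons_of_ne (by decide),
          Function.iterate_succ_apply']
        have h2 := Dm_comm_iter k n hc hg true false (w.count true)
        have h3 : (Y true)^[w.count true] (Y false ((Y false)^[w.count false] (k a)))
            - Y false ((Y true)^[w.count true] ((Y false)^[w.count false] (k a)))
            ∈ Dm Y k n (m + 1) := Dm_mono Y k n (by omega) h2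
        have h4 := sub_mem h1 h3
        rw [hZ] at h4
        convert h4 using 1
        ring

lemma top_word (hc : Comm Y) (h0 : Y false (k 0) ∈ Dm Y k n 0)
    (hs : ∀ b < n, Y false (k (b + 1)) + Y true (k b) ∈ Dm Y k n 0)
    (hn : Y true (k n) ∈ Dm Y k n 0) (a : ℕ) (ha : a ≤ n) (w : List Bool)
    (hw : w.length = n + 1) : word Y w (k a) ∈ Dm Y k n n := by
  have hk0 : ∀ a ≤ n, k a ∈ Dm Y k n 0 := fun a ha =>
    word_mem Y k n (w := []) (m := 0) (by simp) ha
  have hr := reorder k n hc a ha w n (by omega)
  have hlen : w.count true + w.count false = w.length := List.count_true_add_count_false w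
  set i := w.count false with hi
  set j := w.count true with hj
  suffices hZ : (Y true)^[j] ((Y false)^[i] (k a)) ∈ Dm Y k n n by
    have := add_mem hr hZ
    rwa [sub_add_cancel] at this
  by_cases hai : a + 1 ≤ i
  · have h1 := chain k n hc false true k hk0 h0 hs a ha
    have h2 := Dm_iter Y k n h1 false (i - (a + 1))
    rw [← Function.iterate_add_apply, Nat.sub_add_cancel hai] at h2
    have h3 := Dm_iter Y k n h2 true j
    exact Dm_mono Y k n (by omega) h3
  · have h1 := chain k n hc true false (fun j => k (n - j)) (fun j _ => hk0 _ (Nat.sub_le _ _))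
      (by simpa using hn)
      (by
        intro j hj'
        have := hs (n - (j + 1)) (by omega)
        rw [show n - (j + 1) + 1 = n - j by omega] at this
        rw [add_comm]
        exact this) (n - a) (Nat.sub_le _ _)
    simp only [Nat.sub_sub_self ha] at h1
    have h2 := Dm_iter Y k n h1 true (j - (n - a + 1))
    rw [← Function.iterate_add_apply, Nat.sub_add_cancel (by omega)] at h2
    have h3 := Dm_iter Y k n h2 false i
    have h4 : (Y false)^[i] ((Y true)^[j] (k a)) ∈ Dm Y k n n := Dm_mono Y k n (by omega) h3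
    have hiter : ∀ (b : Bool) (r : ℕ) (w' : List Bool) (x : A),
        word Y (List.replicate r b ++ w') x = (Y b)^[r] (word Y w' x) := by
      intro b r w' x
      induction r with
      | zero => simp
      | succ r ih =>
        rw [List.replicate_succ, Function.iterate_succ_apply', ← ih]
        rfl
    have hww : word Y (List.replicate i false ++ List.replicate j true) (k a)
        = (Y false)^[i] ((Y true)^[j] (k a)) := by
      rw [hiter]
      congr 1
      have := hiter true j [] (k a)
      rw [List.append_nil] at this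
      rw [this]
      rfl
    have h5 := reorder k n hc a ha (List.replicate i false ++ List.replicate j true) n
      (by simp; omega)
    have c1 : (List.replicate i false ++ List.replicate j true).count true = j := by
      simp [List.count_append, List.count_replicate]
    have c2 : (List.replicate i false ++ List.replicate j true).count false = i := by
      simp [List.count_append, List.count_replicate]
    rw [c1, c2, hww] at h5
    have h6 := sub_mem h4 h5
    rwa [sub_sub_cancel] at h6

theorem Dm_stable (hc : Comm Y) (h0 : Y false (k 0) ∈ Dm Y k n 0)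
    (hs : ∀ b < n, Y false (k (b + 1)) + Y true (k b) ∈ Dm Y k n 0)
    (hn : Y true (k n) ∈ Dm Y k n 0) {h : A} (hh : h ∈ Dm Y k n n) (b : Bool) :
    Y b h ∈ Dm Y k n n := by
  refine Submodule.span_induction (p := fun x _ => Y b x ∈ Dm Y k n n) ?_ ?_ ?_ ?_ hh
  · rintro g ⟨w, a, hw, ha, rfl⟩
    have : Y b (word Y w (k a)) = word Y (b :: w) (k a) := rfl
    rw [this]
    rcases Nat.lt_or_ge w.length n with h | h
    · exact word_mem Y k n (by simp; omega) ha
    · exact top_word k n hc h0 hs hn a ha _ (by simp; omega)
  · rw [map_zero]; exact zero_mem _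
  · intro x y _ _ hx hy
    rw [map_add]; exact add_mem hx hy
  · intro a x hx hYx
    rw [smul_eq_mul, Derivation.leibniz, smul_eq_mul, smul_eq_mul]
    exact add_mem (Ideal.mul_mem_left _ _ hYx) (Ideal.mul_mem_right _ _ hx)

theorem Dm_fg (m : ℕ) : (Dm Y k n m).FG := by
  have hfin : Set.Finite {g | ∃ w : List Bool, ∃ a, w.length ≤ m ∧ a ≤ n ∧ g = word Y w (k a)} := by
    have h1 : Set.Finite ({w : List Bool | w.length ≤ m} ×ˢ {a : ℕ | a ≤ n}) :=
      (List.finite_length_le Bool m).prod (Set.finite_le_nat n)
    refine (h1.image (fun q => word Y q.1 (k q.2))).subset ?_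
    rintro g ⟨w, a, hw, ha, rfl⟩
    exact ⟨(w, a), ⟨hw, ha⟩, rfl⟩
  exact ⟨hfin.toFinset, by rw [Set.Finite.coe_toFinset]; rfl⟩

theorem Dm_le (m : ℕ) (J : Ideal A) (hJ : ∀ a ≤ n, k a ∈ J) (hY : ∀ b, ∀ x ∈ J, Y b x ∈ J) :
    Dm Y k n m ≤ J := by
  apply Ideal.span_le.mpr
  rintro g ⟨w, a, -, ha, rfl⟩
  show word Y w (k a) ∈ J
  induction w with
  | nil => exact hJ a ha
  | cons b w ih => exact hY b _ ih

end Pool.Agent.W_MP_4b1b5d_h66
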