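import Mathlib

set_option autoImplicit false

/-!
# Polynomial integrals of a non-resonant linear natural system are even in the momenta

Variables `inl k` are positions, `inr k` are momenta.  `LH G S` is the linear Hamiltonian vector
field `∑ G k l p_l ∂/∂x_k - ∑ S k l x_l ∂/∂p_k`.
-/

namespace Pool.Agent.W_MP_4b1b5d_h66

open MvPolynomial

/-- Polynomials in two positions (`inl`) and two momenta (`inr`). -/
abbrev PP : Type := MvPolynomial (Fin 2 ⊕ Fin 2) ℂ

/-- The linear Hamiltonian vector field. -/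
noncomputable def LH (G S : Matrix (Fin 2) (Fin 2) ℂ) : Derivation ℂ PP PP :=
  mkDerivation ℂ (Sum.elim (fun k => ∑ l, C (G k l) * X (Sum.inr l))
    (fun k => - ∑ l, C (S k l) * X (Sum.inl l)))

/-- Reversal of the momenta. -/
noncomputable def sgn : PP →ₐ[ℂ] PP :=
  aeval (Sum.elim (fun k => X (Sum.inl k)) (fun k => - X (Sum.inr k)))

/-- The diagonal derivation. -/
noncomputable def DD (ν : Fin 2 → ℂ) : Derivation ℂ PP PP :=
  mkDerivation ℂ (fun i => C (Sum.elim ν (fun j => - ν j) i) * X i)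

lemma coeff_DD (ν : Fin 2 → ℂ) (Q : PP) (m : (Fin 2 ⊕ Fin 2) →₀ ℕ) :
    coeff m (DD ν Q)
      = (∑ i, (m i : ℂ) * Sum.elim ν (fun j => - ν j) i) * coeff m Q := by
  classical
  induction Q using MvPolynomial.induction_on' with
  | monomial u a =>
    have h1 : DD ν (monomial u a)
        = monomial u ((∑ i, (u i : ℂ) * Sum.elim ν (fun j => - ν j) i) * a) := by
      rw [DD, mkDerivation_monomial]
      rw [Finsupp.sum_fintype _ _ (by intro i; simp)]
      rw [Finset.smul_sum, Finset.sum_mul, map_sum]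
      refine Finset.sum_congr rfl (fun i _ => ?_)
      by_cases hi : u i = 0
      · simp [hi]
      · have hsub : u - Finsupp.single i 1 + Finsupp.single i 1 = u := by
          ext j
          by_cases hj : i = j
          · subst hj; simp; omega
          · simp [hj]
        rw [smul_eq_mul, ← mul_assoc, mul_comm (monomial _ _) (C _), mul_assoc, X, monomial_mul, hsub,
          C_mul_monomial, smul_monomial]
        congr 1
        simp only [smul_eq_mul]
        ring
    rw [h1, coeff_monomial, coeff_monomial]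
    split_ifs with h
    · rw [h]
    · simp
  | add p q hp hq => rw [map_add, coeff_add, coeff_add, hp, hq]; ring

/-- Non-resonance of `S * G`. -/
def NonRes (M : Matrix (Fin 2) (Fin 2) ℂ) : Prop :=
  ∀ k l : ℤ, ¬ (k = 0 ∧ l = 0) →
    ((k : ℂ) ^ 2 + (l : ℂ) ^ 2) ^ 2 * M.det ≠ (k : ℂ) ^ 2 * (l : ℂ) ^ 2 * M.trace ^ 2

lemma exists_eig (M : Matrix (Fin 2) (Fin 2) ℂ) (hM : NonRes M) :
    ∃ (Cm : Matrix (Fin 2) (Fin 2) ℂ) (ν : Fin 2 → ℂ), Cm.det ≠ 0 ∧ (∀ j, ν j ≠ 0) ∧
      (∀ i j, ∑ l, M i l * Cm l j = - (ν j) ^ 2 * Cm i j) ∧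
      ∀ k l : ℤ, (k : ℂ) * ν 0 + (l : ℂ) * ν 1 = 0 → k = 0 ∧ l = 0 := by
  obtain ⟨s, hs⟩ := IsAlgClosed.exists_pow_nat_eq (M.trace ^ 2 - 4 * M.det) (n := 2) (by norm_num)
  obtain ⟨n0, hn0⟩ := IsAlgClosed.exists_pow_nat_eq (-((M.trace + s) / 2)) (n := 2) (by norm_num)
  obtain ⟨n1, hn1⟩ := IsAlgClosed.exists_pow_nat_eq (-((M.trace - s) / 2)) (n := 2) (by norm_num)
  have hdet : M.det ≠ 0 := by
    have h := hM 1 0 (by simp)
    intro h0
    apply h
    simp [h0]
  have hs0 : s ≠ 0 := by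
    intro h0
    have h := hM 1 1 (by simp)
    apply h
    have h2 : M.trace ^ 2 = 4 * M.det := by
      rw [h0] at hs; linear_combination -hs
    rw [h2]; norm_num
  set t := M.trace with ht
  set d := M.det with hd
  have hsum : n0 ^ 2 + n1 ^ 2 = - t := by rw [hn0, hn1]; ring
  have hprod : n0 ^ 2 * n1 ^ 2 = d := by
    rw [hn0, hn1]; linear_combination (-1/4 : ℂ) * hs
  have hn0' : n0 ≠ 0 := by
    intro h; apply hdet; rw [← hprod, h]; ring
  have hn1' : n1 ≠ 0 := by
    intro h; apply hdet; rw [← hprod, h]; ring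
  have htr : M 0 0 + M 1 1 = t := by rw [ht, Matrix.trace_fin_two]
  have hdt : M 0 0 * M 1 1 - M 0 1 * M 1 0 = d := by rw [hd, Matrix.det_fin_two]
  have hdet0 : (M - (-(n0 ^ 2)) • (1 : Matrix (Fin 2) (Fin 2) ℂ)).det = 0 := by
    rw [Matrix.det_fin_two]
    simp only [Matrix.sub_apply, Matrix.smul_apply, Matrix.one_apply_eq, smul_eq_mul, mul_one,
      Matrix.one_apply_ne (show (0 : Fin 2) ≠ 1 by decide),
      Matrix.one_apply_ne (show (1 : Fin 2) ≠ 0 by decide), mul_zero, sub_zero]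
    rw [hn0]
    linear_combination (-((t + s) / 2)) * htr + hdt + (1/4 : ℂ) * hs
  have hdet1 : (M - (-(n1 ^ 2)) • (1 : Matrix (Fin 2) (Fin 2) ℂ)).det = 0 := by
    rw [Matrix.det_fin_two]
    simp only [Matrix.sub_apply, Matrix.smul_apply, Matrix.one_apply_eq, smul_eq_mul, mul_one,
      Matrix.one_apply_ne (show (0 : Fin 2) ≠ 1 by decide),
      Matrix.one_apply_ne (show (1 : Fin 2) ≠ 0 by decide), mul_zero, sub_zero]
    rw [hn1]
    linear_combination (-((t - s) / 2)) * htr + hdt + (1/4 : ℂ) * hs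
  obtain ⟨v, hv0, hv⟩ := (Matrix.exists_mulVec_eq_zero_iff).mpr hdet0
  obtain ⟨w, hw0, hw⟩ := (Matrix.exists_mulVec_eq_zero_iff).mpr hdet1
  have ev : ∀ i, M i 0 * v 0 + M i 1 * v 1 = -(n0 ^ 2) * v i := by
    intro i
    have h := congrFun hv i
    rw [Matrix.sub_mulVec, Pi.sub_apply, Matrix.smul_mulVec, Matrix.one_mulVec] at h
    simp only [Matrix.mulVec, dotProduct, Fin.sum_univ_two, Pi.smul_apply, smul_eq_mul,
      Pi.zero_apply] at h
    linear_combination h
  have ew : ∀ i, M i 0 * w 0 + M i 1 * w 1 = -(n1 ^ 2) * w i := by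
    intro i
    have h := congrFun hw i
    rw [Matrix.sub_mulVec, Pi.sub_apply, Matrix.smul_mulVec, Matrix.one_mulVec] at h
    simp only [Matrix.mulVec, dotProduct, Fin.sum_univ_two, Pi.smul_apply, smul_eq_mul,
      Pi.zero_apply] at h
    linear_combination h
  have hdiff : n0 ^ 2 - n1 ^ 2 ≠ 0 := by
    rw [hn0, hn1]
    intro h
    apply hs0
    linear_combination -h
  refine ⟨Matrix.of (fun i j => if j = 0 then v i else w i), ![n0, n1], ?_, ?_, ?_, ?_⟩
  · rw [Matrix.det_fin_two]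
    simp only [Matrix.of_apply, if_true, one_ne_zero, if_false]
    intro h
    have h1 : v 0 * w 1 = 0 := by
      have : (n0 ^ 2 - n1 ^ 2) * (v 0 * w 1) = 0 := by
        linear_combination (w 1) * ev 0 - v 1 * ew 0 - (M 0 0 + n1 ^ 2) * h
      exact (mul_eq_zero.mp this).resolve_left hdiff
    have h2 : w 0 * v 1 = 0 := by linear_combination -h + h1
    have h3 : v 0 * w 0 = 0 := by
      have : (n0 ^ 2 - n1 ^ 2) * (v 0 * w 0) = 0 := by
        linear_combination (w 0) * ev 0 - v 0 * ew 0 + (M 0 1) * h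
      exact (mul_eq_zero.mp this).resolve_left hdiff
    have h4 : v 1 * w 1 = 0 := by
      have : (n0 ^ 2 - n1 ^ 2) * (v 1 * w 1) = 0 := by
        linear_combination (w 1) * ev 1 - v 1 * ew 1 - (M 1 0) * h
      exact (mul_eq_zero.mp this).resolve_left hdiff
    by_cases ha : v 0 = 0
    · have hb : v 1 ≠ 0 := by
        intro hb; apply hv0; ext i; fin_cases i <;> simp [ha, hb]
      apply hw0
      ext i
      fin_cases i
      · simpa using (mul_eq_zero.mp h2).resolve_right hb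
      · simpa using (mul_eq_zero.mp h4).resolve_left hb
    · apply hw0
      ext i
      fin_cases i
      · simpa using (mul_eq_zero.mp h3).resolve_left ha
      · simpa using (mul_eq_zero.mp h1).resolve_left ha
  · intro j
    fin_cases j
    · simpa using hn0'
    · simpa using hn1'
  · intro i j
    rw [Fin.sum_univ_two]
    fin_cases j
    · simpa using ev i
    · simpa using ew i
  · intro k l hkl
    by_contra hne
    apply hM k l hne
    simp only [Matrix.cons_val_zero, Matrix.cons_val_one] at hkl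
    have h1 : (k : ℂ) ^ 2 * n0 ^ 2 = (l : ℂ) ^ 2 * n1 ^ 2 := by
      have : (k : ℂ) * n0 = - ((l : ℂ) * n1) := by linear_combination hkl
      calc (k : ℂ) ^ 2 * n0 ^ 2 = ((k : ℂ) * n0) ^ 2 := by ring
        _ = _ := by rw [this]; ring
    rw [← hd, ← ht]
    have e : t = -(n0 ^ 2 + n1 ^ 2) := by rw [hsum]; ring
    rw [← hprod, e]
    linear_combination ((k : ℂ) ^ 2 * n1 ^ 2 - (l : ℂ) ^ 2 * n0 ^ 2) * h1

lemma derivation_comm {D L : Derivation ℂ PP PP} {Φ : PP →ₐ[ℂ] PP}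
    (h : ∀ i, D (Φ (X i)) = Φ (L (X i))) (P : PP) : D (Φ P) = Φ (L P) := by
  induction P using MvPolynomial.induction_on with
  | C a => simp
  | add p q hp hq => simp only [map_add, hp, hq]
  | mul_X p i hp =>
    rw [map_mul, Derivation.leibniz, Derivation.leibniz, hp, h i]
    simp only [smul_eq_mul, map_add, map_mul]

/-- Polynomial integrals of a non-resonant linear natural system are even in the momenta. -/
theorem even_of_LH (G S : Matrix (Fin 2) (Fin 2) ℂ) (hres : NonRes (S * G)) (P : PP)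
    (hP : LH G S P = 0) : sgn P = P := by
  classical
  obtain ⟨c, ν, hc, hν, hev, hnr⟩ := exists_eig (S * G) hres
  have hdet : (S * G).det ≠ 0 := by
    have h := hres 1 0 (by simp)
    intro h0
    apply h
    simp [h0]
  have hG : G.det ≠ 0 := by
    intro h0; apply hdet; rw [Matrix.det_mul, h0, mul_zero]
  set b : Matrix (Fin 2) (Fin 2) ℂ := G * c with hb
  have hbdet : b.det ≠ 0 := by rw [hb, Matrix.det_mul]; exact mul_ne_zero hG hc
  have hbe : ∀ k j, b k j = G k 0 * c 0 j + G k 1 * c 1 j := by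
    intro k j; rw [hb, Matrix.mul_apply, Fin.sum_univ_two]
  have hse : ∀ k j, S k 0 * b 0 j + S k 1 * b 1 j = - (ν j) ^ 2 * c k j := by
    intro k j
    have h := hev k j
    rw [Fin.sum_univ_two] at h
    simp only [Matrix.mul_apply, Fin.sum_univ_two] at h
    rw [hbe, hbe]
    linear_combination h
  set Φ : PP →ₐ[ℂ] PP := aeval (Sum.elim
    (fun k => ∑ j, C (b k j / 2) * (X (Sum.inl j) + X (Sum.inr j)))
    (fun k => ∑ j, C (c k j * ν j / 2) * (X (Sum.inl j) - X (Sum.inr j)))) with hΦ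
  have hΦl : ∀ k, Φ (X (Sum.inl k)) = ∑ j, C (b k j / 2) * (X (Sum.inl j) + X (Sum.inr j)) := by
    intro k; rw [hΦ, aeval_X, Sum.elim_inl]
  have hΦr : ∀ k, Φ (X (Sum.inr k))
      = ∑ j, C (c k j * ν j / 2) * (X (Sum.inl j) - X (Sum.inr j)) := by
    intro k; rw [hΦ, aeval_X, Sum.elim_inr]
  have hΦC : ∀ a : ℂ, Φ (C a) = C a := by
    intro a; rw [← MvPolynomial.algebraMap_eq, AlgHom.commutes]
  have hDl : ∀ j, DD ν (X (Sum.inl j)) = C (ν j) * X (Sum.inl j) := by
    intro j; rw [DD, mkDerivation_X]; rfl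
  have hDr : ∀ j, DD ν (X (Sum.inr j)) = - (C (ν j) * X (Sum.inr j)) := by
    intro j; rw [DD, mkDerivation_X]; simp
  have hDC : ∀ a : ℂ, DD ν (C a) = 0 := by
    intro a; rw [← MvPolynomial.algebraMap_eq]; exact Derivation.map_algebraMap _ a
  have key : DD ν (Φ P) = Φ (LH G S P) := by
    apply derivation_comm
    rintro (k | k)
    · have hL : LH G S (X (Sum.inl k)) = ∑ l, C (G k l) * X (Sum.inr l) := by
        rw [LH, mkDerivation_X]; rfl
      rw [hL, hΦl]
      simp only [Fin.sum_univ_two, map_add, Derivation.leibniz, hDC, hDl, hDr, smul_eq_mul, mul_zero,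
        add_zero, map_mul, hΦC, hΦr, hbe]
      simp only [C_add, C_mul, div_eq_mul_inv]
      ring
    · have hL : LH G S (X (Sum.inr k)) = - ∑ l, C (S k l) * X (Sum.inl l) := by
        rw [LH, mkDerivation_X]; rfl
      rw [hL, hΦr]
      simp only [Fin.sum_univ_two, map_add, map_sub, map_neg, Derivation.leibniz, hDC, hDl, hDr,
        smul_eq_mul, mul_zero, add_zero, map_mul, hΦC, hΦl]
      have h0 := congrArg (C : ℂ → PP) (hse k 0)
      have h1 := congrArg (C : ℂ → PP) (hse k 1)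
      simp only [C_add, C_mul, C_neg, C_pow, neg_mul] at h0 h1
      simp only [C_mul, div_eq_mul_inv]
      linear_combination (C (2 : ℂ)⁻¹ * (X (Sum.inl 0) + X (Sum.inr 0))) * h0
        + (C (2 : ℂ)⁻¹ * (X (Sum.inl 1) + X (Sum.inr 1))) * h1
  rw [hP, map_zero] at key
  -- the coefficients of `Φ P` live on the symmetric monomials
  have hsym : ∀ m : (Fin 2 ⊕ Fin 2) →₀ ℕ, coeff m (Φ P) ≠ 0 →
      ∀ j, m (Sum.inl j) = m (Sum.inr j) := by
    intro m hm
    have h := coeff_DD ν (Φ P) m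
    rw [key, coeff_zero] at h
    have h2 := (mul_eq_zero.mp h.symm).resolve_right hm
    rw [Fintype.sum_sum_type] at h2
    simp only [Sum.elim_inl, Sum.elim_inr, Fin.sum_univ_two] at h2
    have h3 := hnr ((m (Sum.inl 0) : ℤ) - m (Sum.inr 0)) ((m (Sum.inl 1) : ℤ) - m (Sum.inr 1))
      (by push_cast; linear_combination h2)
    intro j
    fin_cases j
    · have := h3.1
      simp only [Fin.zero_eta]
      omega
    · have := h3.2
      simp only [Fin.mk_one]
      omega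
  have hmap : ∀ m : (Fin 2 ⊕ Fin 2) →₀ ℕ, (∀ j, m (Sum.inl j) = m (Sum.inr j)) →
      m.mapDomain Sum.swap = m := by
    intro m hm
    ext i
    have h := Finsupp.mapDomain_apply (Sum.swap_rightInverse.injective) m (Sum.swap i)
    rw [Sum.swap_swap] at h
    rw [h]
    rcases i with i | i
    · exact (hm i).symm
    · exact hm i
  have hswap : rename Sum.swap (Φ P) = Φ P := by
    ext m
    have e : (m.mapDomain Sum.swap).mapDomain Sum.swap = m := by
      rw [← Finsupp.mapDomain_comp]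
      have : (Sum.swap ∘ Sum.swap : Fin 2 ⊕ Fin 2 → Fin 2 ⊕ Fin 2) = id := by
        funext i; simp
      rw [this, Finsupp.mapDomain_id]
    have h1 : coeff m (rename Sum.swap (Φ P)) = coeff (m.mapDomain Sum.swap) (Φ P) := by
      conv_lhs => rw [← e]
      exact coeff_rename_mapDomain _ (Sum.swap_rightInverse.injective) _ _
    rw [h1]
    by_cases hm : coeff m (Φ P) = 0
    · by_cases hm' : coeff (m.mapDomain Sum.swap) (Φ P) = 0
      · rw [hm, hm']
      · have := hmap _ (hsym _ hm')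
        rw [e] at this
        rw [← this] at hm'
        exact absurd hm hm'
    · rw [hmap m (hsym m hm)]
  have hsg : Φ (sgn P) = rename Sum.swap (Φ P) := by
    have : (Φ.comp sgn) = (rename Sum.swap).comp Φ := by
      apply MvPolynomial.algHom_ext
      rintro (k | k)
      · simp only [AlgHom.comp_apply, sgn, aeval_X, Sum.elim_inl, hΦl, map_sum, map_mul, map_add,
          rename_C, rename_X, Sum.swap_inl, Sum.swap_inr]
        refine Finset.sum_congr rfl (fun j _ => by ring)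
      · simp only [AlgHom.comp_apply, sgn, aeval_X, Sum.elim_inr, map_neg, hΦr, map_sum, map_mul,
          map_sub, rename_C, rename_X, Sum.swap_inl, Sum.swap_inr]
        rw [← Finset.sum_neg_distrib]
        refine Finset.sum_congr rfl (fun j _ => by ring)
    exact DFunLike.congr_fun this P
  -- injectivity of `Φ`
  set Ψ : PP →ₐ[ℂ] PP := aeval (Sum.elim
    (fun j => ∑ k, (C (b⁻¹ j k) * X (Sum.inl k) + C ((ν j)⁻¹ * c⁻¹ j k) * X (Sum.inr k)))
    (fun j => ∑ k, (C (b⁻¹ j k) * X (Sum.inl k) - C ((ν j)⁻¹ * c⁻¹ j k) * X (Sum.inr k)))) with hΨ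
  have hΨl : ∀ j, Ψ (X (Sum.inl j))
      = ∑ k, (C (b⁻¹ j k) * X (Sum.inl k) + C ((ν j)⁻¹ * c⁻¹ j k) * X (Sum.inr k)) := by
    intro k; rw [hΨ, aeval_X, Sum.elim_inl]
  have hΨr : ∀ j, Ψ (X (Sum.inr j))
      = ∑ k, (C (b⁻¹ j k) * X (Sum.inl k) - C ((ν j)⁻¹ * c⁻¹ j k) * X (Sum.inr k)) := by
    intro k; rw [hΨ, aeval_X, Sum.elim_inr]
  have hΨC : ∀ a : ℂ, Ψ (C a) = C a := by
    intro a; rw [← MvPolynomial.algebraMap_eq, AlgHom.commutes]
  have hbb : ∀ i j, b i 0 * b⁻¹ 0 j + b i 1 * b⁻¹ 1 j = if i = j then 1 else 0 := by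
    intro i j
    have h := congrFun (congrFun (Matrix.mul_nonsing_inv b (isUnit_iff_ne_zero.mpr hbdet)) i) j
    rw [Matrix.mul_apply, Fin.sum_univ_two, Matrix.one_apply] at h
    exact h
  have hcc : ∀ i j, c i 0 * c⁻¹ 0 j + c i 1 * c⁻¹ 1 j = if i = j then 1 else 0 := by
    intro i j
    have h := congrFun (congrFun (Matrix.mul_nonsing_inv c (isUnit_iff_ne_zero.mpr hc)) i) j
    rw [Matrix.mul_apply, Fin.sum_univ_two, Matrix.one_apply] at h
    exact h
  have hΨΦ : ∀ Q, Ψ (Φ Q) = Q := by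
    intro Q
    have : Ψ.comp Φ = AlgHom.id ℂ PP := by
      apply MvPolynomial.algHom_ext
      have h2 : (C ((2 : ℂ)⁻¹) : PP) * 2 = 1 := by
        rw [show (2 : PP) = C (2 : ℂ) from (map_ofNat C 2).symm, ← C_mul, inv_mul_cancel₀ (by norm_num), C_1]
      have hnn : ∀ j, (C (ν j) : PP) * C ((ν j)⁻¹) = 1 := by
        intro j; rw [← C_mul, mul_inv_cancel₀ (hν j), C_1]
      rintro (k | k)
      · rw [AlgHom.comp_apply, AlgHom.id_apply, hΦl]
        have h0 := congrArg (C : ℂ → PP) (hbb k 0)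
        have h1 := congrArg (C : ℂ → PP) (hbb k 1)
        simp only [C_add, C_mul] at h0 h1
        simp only [Fin.sum_univ_two, map_add, map_mul, hΨC, hΨl, hΨr, div_eq_mul_inv]
        fin_cases k
        · simp only [Fin.zero_eta, if_true, zero_ne_one, if_false, C_0, C_1] at h0 h1 ⊢
          linear_combination (C ((2 : ℂ)⁻¹) * 2 * X (Sum.inl 0)) * h0
            + (C ((2 : ℂ)⁻¹) * 2 * X (Sum.inl 1)) * h1 + X (Sum.inl 0) * h2
        · simp only [Fin.mk_one, if_true, one_ne_zero, if_false, C_0, C_1] at h0 h1 ⊢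
          linear_combination (C ((2 : ℂ)⁻¹) * 2 * X (Sum.inl 0)) * h0
            + (C ((2 : ℂ)⁻¹) * 2 * X (Sum.inl 1)) * h1 + X (Sum.inl 1) * h2
      · rw [AlgHom.comp_apply, AlgHom.id_apply, hΦr]
        have h0 := congrArg (C : ℂ → PP) (hcc k 0)
        have h1 := congrArg (C : ℂ → PP) (hcc k 1)
        simp only [C_add, C_mul] at h0 h1
        simp only [Fin.sum_univ_two, map_add, map_sub, map_mul, hΨC, hΨl, hΨr, div_eq_mul_inv]
        have e0 := hnn 0
        have e1 := hnn 1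
        have main : (C (c k 0) * C (ν 0) * C (2 : ℂ)⁻¹ *
            (C (b⁻¹ 0 0) * X (Sum.inl 0) + C (ν 0)⁻¹ * C (c⁻¹ 0 0) * X (Sum.inr 0) +
              (C (b⁻¹ 0 1) * X (Sum.inl 1) + C (ν 0)⁻¹ * C (c⁻¹ 0 1) * X (Sum.inr 1)) -
            (C (b⁻¹ 0 0) * X (Sum.inl 0) - C (ν 0)⁻¹ * C (c⁻¹ 0 0) * X (Sum.inr 0) +
              (C (b⁻¹ 0 1) * X (Sum.inl 1) - C (ν 0)⁻¹ * C (c⁻¹ 0 1) * X (Sum.inr 1)))) +
            C (c k 1) * C (ν 1) * C (2 : ℂ)⁻¹ *
            (C (b⁻¹ 1 0) * X (Sum.inl 0) + C (ν 1)⁻¹ * C (c⁻¹ 1 0) * X (Sum.inr 0) +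
              (C (b⁻¹ 1 1) * X (Sum.inl 1) + C (ν 1)⁻¹ * C (c⁻¹ 1 1) * X (Sum.inr 1)) -
            (C (b⁻¹ 1 0) * X (Sum.inl 0) - C (ν 1)⁻¹ * C (c⁻¹ 1 0) * X (Sum.inr 0) +
              (C (b⁻¹ 1 1) * X (Sum.inl 1) - C (ν 1)⁻¹ * C (c⁻¹ 1 1) * X (Sum.inr 1)))) : PP)
            = (C (2 : ℂ)⁻¹ * 2) * ((C (c k 0) * C (c⁻¹ 0 0) + C (c k 1) * C (c⁻¹ 1 0)) * X (Sum.inr 0)
              + (C (c k 0) * C (c⁻¹ 0 1) + C (c k 1) * C (c⁻¹ 1 1)) * X (Sum.inr 1)) := by
          linear_combination (C (c k 0) * C (2 : ℂ)⁻¹ * 2 * (C (c⁻¹ 0 0) * X (Sum.inr 0)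
            + C (c⁻¹ 0 1) * X (Sum.inr 1))) * e0
            + (C (c k 1) * C (2 : ℂ)⁻¹ * 2 * (C (c⁻¹ 1 0) * X (Sum.inr 0)
            + C (c⁻¹ 1 1) * X (Sum.inr 1))) * e1
        rw [main, h0, h1, h2, one_mul]
        fin_cases k <;> simp
    exact DFunLike.congr_fun this Q
  have hfin : Φ (sgn P) = Φ P := by rw [hsg, hswap]
  rw [← hΨΦ (sgn P), hfin, hΨΦ]

end Pool.Agent.W_MP_4b1b5d_h66
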