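import Pool.Agent.W_MP_4b1b5d_h66.Jets
import Pool.Agent.W_MP_4b1b5d_h66.EvenLem

set_option autoImplicit false

/-!
# All jets of an odd integral vanish at a non-resonant critical point
-/

namespace Pool.Agent.W_MP_4b1b5d_h66

open MvPolynomial

lemma LH_apply (G S : Matrix (Fin 2) (Fin 2) ℂ) (P : PP) :
    LH G S P = ∑ k, ((∑ l, C (G k l) * X (Sum.inr l)) * pderiv (Sum.inl k) P
      - (∑ l, C (S k l) * X (Sum.inl l)) * pderiv (Sum.inr k) P) := by
  have h : LH G S = ((∑ l, C (G 0 l) * X (Sum.inr l) : PP) • (pderiv (Sum.inl 0) :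
        Derivation ℂ PP PP)
      - (∑ l, C (S 0 l) * X (Sum.inl l) : PP) • (pderiv (Sum.inr 0) : Derivation ℂ PP PP))
      + ((∑ l, C (G 1 l) * X (Sum.inr l) : PP) • (pderiv (Sum.inl 1) : Derivation ℂ PP PP)
      - (∑ l, C (S 1 l) * X (Sum.inl l) : PP) • (pderiv (Sum.inr 1) : Derivation ℂ PP PP)) := by
    apply MvPolynomial.derivation_ext
    intro i
    rcases i with i | i
    · rw [LH, mkDerivation_X, Sum.elim_inl]
      simp only [Derivation.add_apply, Derivation.sub_apply, Derivation.smul_apply,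
        smul_eq_mul]
      fin_cases i <;> simp [pderiv_X]
    · rw [LH, mkDerivation_X, Sum.elim_inr]
      simp only [Derivation.add_apply, Derivation.sub_apply, Derivation.smul_apply,
        smul_eq_mul]
      fin_cases i <;> simp [pderiv_X]
  rw [h]
  simp only [Derivation.add_apply, Derivation.sub_apply, Derivation.smul_apply,
    smul_eq_mul, Fin.sum_univ_two]

section

variable {B : Type*} [CommRing B] (δ : Fin 2 ⊕ Fin 2 → Derivation ℤ B B) (ev : B →+* ℂ)
  (τ : B →+* B)

lemma sgn_jet (hev : ∀ b, ev (τ b) = ev b)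
    (hl : ∀ k b, δ (Sum.inl k) (τ b) = τ (δ (Sum.inl k) b))
    (hr : ∀ k b, δ (Sum.inr k) (τ b) = - τ (δ (Sum.inr k) b)) (m : ℕ) (b : B) :
    sgn (jet δ ev m b) = jet δ ev m (τ b) := by
  induction m generalizing b with
  | zero =>
    rw [jet_zero_index, jet_zero_index, hev, ← MvPolynomial.algebraMap_eq, AlgHom.commutes]
  | succ m ih =>
    rw [jet_succ, jet_succ, map_mul, map_sum]
    have hC : ∀ a : ℂ, sgn (C a) = C a := by
      intro a; rw [← MvPolynomial.algebraMap_eq, AlgHom.commutes]
    rw [hC]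
    congr 1
    refine Finset.sum_congr rfl (fun i _ => ?_)
    rw [map_mul, ih]
    rcases i with i | i
    · rw [hl, sgn, aeval_X, Sum.elim_inl]
    · rw [hr, sgn, aeval_X, Sum.elim_inr, jet_neg]
      ring

theorem jets_zero (hδ : ∀ i j b, δ i (δ j b) = δ j (δ i b))
    (hev : ∀ b, ev (τ b) = ev b)
    (hl : ∀ k b, δ (Sum.inl k) (τ b) = τ (δ (Sum.inl k) b))
    (hr : ∀ k b, δ (Sum.inr k) (τ b) = - τ (δ (Sum.inr k) b))
    (G S : Matrix (Fin 2) (Fin 2) ℂ) (hres : NonRes (S * G)) (H F : B)
    (hcrit : ∀ i, ev (δ i H) = 0)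
    (hG : ∀ k l, ev (δ (Sum.inr l) (δ (Sum.inr k) H)) = G k l)
    (hS : ∀ k l, ev (δ (Sum.inl l) (δ (Sum.inl k) H)) = S k l)
    (hM : ∀ k l, ev (δ (Sum.inl l) (δ (Sum.inr k) H)) = 0)
    (hbr : ∑ k, (δ (Sum.inr k) H * δ (Sum.inl k) F - δ (Sum.inl k) H * δ (Sum.inr k) F) = 0)
    (hτ : τ F = - F) (m : ℕ) : jet δ ev m F = 0 := by
  induction m using Nat.strong_induction_on with
  | _ m ih =>
  have hder : ∀ i b, b + 1 < m → jet δ ev b (δ i F) = 0 := by
    intro i b hb
    rw [← pderiv_jet δ ev hδ, ih _ hb, map_zero]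
  have j1r : ∀ k, jet δ ev 1 (δ (Sum.inr k) H) = ∑ l, C (G k l) * X (Sum.inr l) := by
    intro k
    rw [jet_succ]
    simp only [jet_zero_index, Fintype.sum_sum_type, hG, hM, C_0, mul_zero, Finset.sum_const_zero,
      zero_add, Nat.cast_zero, inv_one, C_1, one_mul]
    exact Finset.sum_congr rfl (fun l _ => mul_comm _ _)
  have j1l : ∀ k, jet δ ev 1 (δ (Sum.inl k) H) = ∑ l, C (S k l) * X (Sum.inl l) := by
    intro k
    have hM' : ∀ l, ev (δ (Sum.inr l) (δ (Sum.inl k) H)) = 0 := by
      intro l; rw [hδ]; exact hM l k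
    rw [jet_succ]
    simp only [jet_zero_index, Fintype.sum_sum_type, hS, hM', C_0, mul_zero, Finset.sum_const_zero,
      add_zero, Nat.cast_zero, inv_one, C_1, zero_add, one_mul]
    exact Finset.sum_congr rfl (fun l _ => mul_comm _ _)
  have hL : LH G S (jet δ ev m F) = 0 := by
    rcases m with _ | m
    · rw [jet_zero_index, ← MvPolynomial.algebraMap_eq]
      exact Derivation.map_algebraMap _ _
    · have h := congrArg (jet δ ev (m + 1)) hbr
      rw [jet_zero, jet_sum] at h
      have term : ∀ i i' : Fin 2 ⊕ Fin 2, jet δ ev (m + 1) (δ i H * δ i' F)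
          = jet δ ev 1 (δ i H) * jet δ ev m (δ i' F) := by
        intro i i'
        rw [jet_mul]
        rw [Finset.sum_eq_single (1, m)]
        · rintro ⟨a, b⟩ hab hne
          have hab' : a + b = m + 1 := Finset.HasAntidiagonal.mem_antidiagonal.mp hab
          rcases a with _ | a
          · simp only [jet_zero_index, hcrit, C_0, zero_mul]
          · have hb : b + 1 < m + 1 := by
              have : a ≠ 0 := by
                rintro rfl
                apply hne
                have : b = m := by omega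
                rw [this]
              omega
            simp only
            rw [hder i' b hb, mul_zero]
        · intro hn
          exact absurd (Finset.HasAntidiagonal.mem_antidiagonal.mpr (by omega)) hn
      simp only [jet_sub, term, j1r, j1l] at h
      rw [LH_apply]
      simp only [pderiv_jet δ ev hδ]
      exact h
  have hs := even_of_LH G S hres _ hL
  rw [sgn_jet δ ev τ hev hl hr, hτ, jet_neg] at hs
  have h2 : (2 : PP) * jet δ ev m F = 0 := by linear_combination (-1 : PP) * hs
  rcases mul_eq_zero.mp h2 with h | h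
  · exact absurd h two_ne_zero
  · exact h

/-- All iterated derivatives of `F` vanish at the point. -/
theorem words_zero (hδ : ∀ i j b, δ i (δ j b) = δ j (δ i b)) (F : B)
    (hF : ∀ m, jet δ ev m F = 0) (w : List (Fin 2 ⊕ Fin 2)) :
    ev (w.foldr (fun i b => δ i b) F) = 0 := by
  have key : ∀ w : List (Fin 2 ⊕ Fin 2), ∀ m, jet δ ev m (w.foldr (fun i b => δ i b) F) = 0 := by
    intro w
    induction w with
    | nil => exact hF
    | cons i w ih =>
      intro m
      rw [List.foldr_cons, ← pderiv_jet δ ev hδ, ih, map_zero]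
  have h := key w 0
  rw [jet_zero_index] at h
  exact (C_injective _ _) (by rw [h, C_0])

end

end Pool.Agent.W_MP_4b1b5d_h66
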