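import Pool.Agent.W_MP_4b1b5d_h66.PolyRing
import Pool.Agent.W_MP_4b1b5d_h66.JetMain
import Pool.Agent.W_MP_4b1b5d_h66.FinType

set_option autoImplicit false

/-!
# Core: an integral is even in the momenta if there is a non-resonant critical point
-/

namespace Pool.Agent.W_MP_4b1b5d_h66

open MvPolynomial

/-- The Hamiltonian as a polynomial in the momenta. -/
noncomputable def HH (half : Sm) (g : Fin 2 → Fin 2 → Sm) (U : Sm) : BB :=
  C half * ∑ i, ∑ j, C (g i j) * (X i * X j) + C U

/-- The Poisson bracket with a second polynomial. -/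
noncomputable def bra (H F : BB) : BB :=
  ∑ k, (del (Sum.inr k) H * del (Sum.inl k) F - del (Sum.inl k) H * del (Sum.inr k) F)

section

variable (half : Sm) (hhalf : half + half = 1) (g : Fin 2 → Fin 2 → Sm)
  (hsym : ∀ i j, g i j = g j i) (U : Sm)

include hhalf hsym in
lemma del_inr_HH (k : Fin 2) : del (Sum.inr k) (HH half g U) = ∑ l, C (g k l) * X l := by
  rw [del_inr, HH]
  simp only [map_add, Derivation.leibniz, pderiv_C, smul_eq_mul, mul_zero, add_zero, map_sum,
    pderiv_X, Fin.sum_univ_two]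
  have h2 : (C half + C half : BB) = 1 := by rw [← C_add, hhalf, C_1]
  fin_cases k
  · simp only [Fin.zero_eta, Pi.single_eq_same, ne_eq, one_ne_zero, not_false_eq_true,
      Pi.single_eq_of_ne, mul_zero, mul_one, zero_add, add_zero, zero_mul]
    rw [hsym 1 0]
    linear_combination (C (g 0 0) * X 0 + C (g 0 1) * X 1) * h2
  · simp only [Fin.mk_one, Pi.single_eq_same, ne_eq, zero_ne_one, not_false_eq_true,
      Pi.single_eq_of_ne, mul_zero, mul_one, zero_add, add_zero, zero_mul]
    rw [hsym 0 1]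
    linear_combination (C (g 1 0) * X 0 + C (g 1 1) * X 1) * h2

include hhalf in
lemma par_half (k : Fin 2) : par k half = 0 := by
  have h := congrArg (par k) hhalf
  rw [map_add, Derivation.map_one_eq_zero] at h
  have h2 : par k half = (half + half) * par k half := by rw [hhalf, one_mul]
  rw [h2, add_mul, ← mul_add, h, mul_zero]

include hhalf in
lemma del_inl_HH (k : Fin 2) : del (Sum.inl k) (HH half g U)
    = C half * ∑ i, ∑ j, C (par k (g i j)) * (X i * X j) + C (par k U) := by
  rw [del_inl, HH]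
  simp only [map_add, Derivation.leibniz, cd_C, cd_X, smul_eq_mul, mul_zero, add_zero, map_sum,
    par_half half hhalf, C_0]
  congr 2
  refine Finset.sum_congr rfl (fun i _ => Finset.sum_congr rfl (fun j _ => ?_))
  ring

/-- Evaluation of `ev0` on products with a variable. -/
lemma ev0_X_mul (x0 : Fin 2 → ℝ) (i : Fin 2) (P : BB) : ev0 x0 (X i * P) = 0 := by
  rw [map_mul]
  have : ev0 x0 (X i : BB) = 0 := by
    rw [ev0_apply]; simp
  rw [this, zero_mul]

lemma ev0_C (x0 : Fin 2 → ℝ) (a : Sm) : ev0 x0 (C a : BB) = ((a : (Fin 2 → ℝ) → ℝ) x0 : ℂ) := by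
  rw [ev0_apply]; simp

include hhalf hsym in
lemma ev0_del_HH (x0 : Fin 2 → ℝ) (hc : ∀ k, (par k U : (Fin 2 → ℝ) → ℝ) x0 = 0)
    (i : Fin 2 ⊕ Fin 2) : ev0 x0 (del i (HH half g U)) = 0 := by
  rcases i with k | k
  · rw [del_inl_HH half hhalf, map_add, ev0_C, hc, map_mul, map_sum]
    have : ∀ i, ev0 x0 (∑ j, C (par k (g i j)) * (X i * X j) : BB) = 0 := by
      intro i
      rw [map_sum]
      refine Finset.sum_eq_zero (fun j _ => ?_)
      rw [map_mul, ev0_X_mul, mul_zero]
    rw [Finset.sum_eq_zero (fun i _ => this i), mul_zero, Complex.ofReal_zero, add_zero]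
  · rw [del_inr_HH half hhalf g hsym, map_sum]
    refine Finset.sum_eq_zero (fun l _ => ?_)
    rw [mul_comm, ev0_X_mul]

include hhalf hsym in
lemma ev0_rr (x0 : Fin 2 → ℝ) (k l : Fin 2) :
    ev0 x0 (del (Sum.inr l) (del (Sum.inr k) (HH half g U)))
      = ((g k l : (Fin 2 → ℝ) → ℝ) x0 : ℂ) := by
  rw [del_inr_HH half hhalf g hsym, del_inr, map_sum, map_sum]
  rw [Finset.sum_eq_single l]
  · rw [Derivation.leibniz, pderiv_X_self, pderiv_C, smul_eq_mul, smul_eq_mul, mul_one, mul_zero,
      add_zero, ev0_C]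
  · intro j _ hj
    rw [Derivation.leibniz, pderiv_X_of_ne hj, pderiv_C]
    simp
  · intro h; exact absurd (Finset.mem_univ _) h

include hhalf hsym in
lemma ev0_lr (x0 : Fin 2 → ℝ) (k l : Fin 2) :
    ev0 x0 (del (Sum.inl l) (del (Sum.inr k) (HH half g U))) = 0 := by
  rw [del_inr_HH half hhalf g hsym, del_inl, map_sum, map_sum]
  refine Finset.sum_eq_zero (fun j _ => ?_)
  rw [Derivation.leibniz, cd_X, cd_C, smul_zero, zero_add, smul_eq_mul, ev0_X_mul]

include hhalf in
lemma ev0_ll (x0 : Fin 2 → ℝ) (k l : Fin 2) :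
    ev0 x0 (del (Sum.inl l) (del (Sum.inl k) (HH half g U)))
      = ((par l (par k U) : (Fin 2 → ℝ) → ℝ) x0 : ℂ) := by
  rw [del_inl_HH half hhalf, del_inl, map_add, cd_C, map_add, ev0_C]
  have : ev0 x0 (cd (par l) (C half * ∑ i, ∑ j, C (par k (g i j)) * (X i * X j) : BB)) = 0 := by
    rw [Derivation.leibniz, cd_C, par_half half hhalf, C_0, smul_zero, add_zero, smul_eq_mul,
      map_mul, map_sum, map_sum]
    have : ∀ i, ev0 x0 (cd (par l) (∑ j, C (par k (g i j)) * (X i * X j) : BB)) = 0 := by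
      intro i
      rw [map_sum, map_sum]
      refine Finset.sum_eq_zero (fun j _ => ?_)
      rw [Derivation.leibniz, Derivation.leibniz, cd_X, cd_X, cd_C, smul_zero, smul_zero, add_zero,
        smul_zero, zero_add, smul_eq_mul, mul_assoc, ev0_X_mul]
    rw [Finset.sum_eq_zero (fun i _ => this i), mul_zero]
  rw [this, zero_add]

lemma rev_HH : rev (HH half g U) = HH half g U := by
  have hC : ∀ a : Sm, rev (C a) = C a := by
    intro a; rw [← MvPolynomial.algebraMap_eq, AlgHom.commutes]
  have hX : ∀ i, rev (X i) = - X i := by intro i; rw [rev, aeval_X]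
  have hm : ∀ i j, rev (C (g i j) * (X i * X j)) = C (g i j) * (X i * X j) := by
    intro i j
    rw [map_mul, map_mul, hC, hX, hX]
    exact congrArg (fun z => C (g i j) * z) (neg_mul_neg (X i : BB) (X j))
  have hs : rev (∑ i, ∑ j, C (g i j) * (X i * X j)) = ∑ i, ∑ j, C (g i j) * (X i * X j) := by
    rw [map_sum]
    refine Finset.sum_congr rfl (fun i _ => ?_)
    rw [map_sum]
    exact Finset.sum_congr rfl (fun j _ => hm i j)
  rw [HH, map_add, map_mul, hC, hC, hs]

lemma bra_rev (F : BB) : bra (HH half g U) (rev F) = - rev (bra (HH half g U) F) := by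
  have h1 : ∀ k, rev (del (Sum.inr k) (HH half g U)) = - del (Sum.inr k) (HH half g U) := by
    intro k
    have := pderiv_rev k (HH half g U)
    rw [rev_HH] at this
    rw [del_inr, eq_neg_iff_add_eq_zero, add_comm]
    rw [eq_neg_iff_add_eq_zero] at this
    exact this
  have h2 : ∀ k, rev (del (Sum.inl k) (HH half g U)) = del (Sum.inl k) (HH half g U) := by
    intro k
    have := cd_rev (par k) (HH half g U)
    rw [rev_HH] at this
    rw [del_inl, ← this]
  rw [bra, bra, map_sum, ← Finset.sum_neg_distrib]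
  refine Finset.sum_congr rfl (fun k _ => ?_)
  have e1 : del (Sum.inl k) (rev F) = rev (del (Sum.inl k) F) := cd_rev (par k) F
  have e2 : del (Sum.inr k) (rev F) = - rev (del (Sum.inr k) F) := pderiv_rev k F
  rw [map_sub, map_mul, map_mul, h1, h2, e1, e2]
  ring

end

end Pool.Agent.W_MP_4b1b5d_h66
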