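import Pool.Agent.W_MP_4b1b5d_h66.Core

set_option autoImplicit false

/-!
# Flatness: from vanishing of all derivatives at `(x0, 0)` to flatness of the coefficients
-/

namespace Pool.Agent.W_MP_4b1b5d_h66

open MvPolynomial

/-- Iterated partial derivatives. -/
noncomputable def pw (w : List (Fin 2)) (f : Sm) : Sm := w.foldl (fun b i => par i b) f

lemma pw_nil (f : Sm) : pw [] f = f := rfl

lemma pw_cons (i : Fin 2) (w : List (Fin 2)) (f : Sm) : pw (i :: w) f = pw w (par i f) := rfl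

lemma pw_add (w : List (Fin 2)) (f g : Sm) : pw w (f + g) = pw w f + pw w g := by
  induction w generalizing f g with
  | nil => rfl
  | cons i w ih => rw [pw_cons, pw_cons, pw_cons, map_add, ih]

lemma pw_zero (w : List (Fin 2)) : pw w 0 = 0 := by
  induction w with
  | nil => rfl
  | cons i w ih => rw [pw_cons, map_zero, ih]

/-- The function is flat at `x0`. -/
def IsFlat (x0 : Fin 2 → ℝ) (f : Sm) : Prop := ∀ w, (pw w f : (Fin 2 → ℝ) → ℝ) x0 = 0

lemma IsFlat.par {x0 : Fin 2 → ℝ} {f : Sm} (h : IsFlat x0 f) (i : Fin 2) :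
    IsFlat x0 (par i f) := fun w => h (i :: w)

lemma IsFlat.mul {x0 : Fin 2 → ℝ} {f : Sm} (h : IsFlat x0 f) (a : Sm) : IsFlat x0 (a * f) := by
  intro w
  induction w generalizing a f with
  | nil =>
    rw [pw_nil]
    show (a : (Fin 2 → ℝ) → ℝ) x0 * (f : (Fin 2 → ℝ) → ℝ) x0 = 0
    have := h []
    rw [pw_nil] at this
    rw [this, mul_zero]
  | cons i w ih =>
    rw [pw_cons, Derivation.leibniz, pw_add, smul_eq_mul, smul_eq_mul, mul_comm f]
    show (pw w (a * Pool.Agent.W_MP_4b1b5d_h66.par i f) : (Fin 2 → ℝ) → ℝ) x0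
      + (pw w (Pool.Agent.W_MP_4b1b5d_h66.par i a * f) : (Fin 2 → ℝ) → ℝ) x0 = 0
    rw [ih (h.par i), ih h, add_zero]

/-- The ideal of flat functions. -/
noncomputable def Fl (x0 : Fin 2 → ℝ) : Ideal Sm where
  carrier := {f | IsFlat x0 f}
  add_mem' {a b} ha hb := by
    intro w
    rw [pw_add]
    show (pw w a : (Fin 2 → ℝ) → ℝ) x0 + (pw w b : (Fin 2 → ℝ) → ℝ) x0 = 0
    rw [ha w, hb w, add_zero]
  zero_mem' := by
    intro w
    rw [pw_zero]
    rfl
  smul_mem' a f hf := by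
    rw [smul_eq_mul]
    exact IsFlat.mul hf a

lemma mem_Fl {x0 : Fin 2 → ℝ} {f : Sm} : f ∈ Fl x0 ↔ IsFlat x0 f := Iff.rfl

lemma Fl_par {x0 : Fin 2 → ℝ} {f : Sm} (h : f ∈ Fl x0) (i : Fin 2) : par i f ∈ Fl x0 :=
  IsFlat.par h i

lemma Fl_zero {x0 : Fin 2 → ℝ} {f : Sm} (h : f ∈ Fl x0) : (f : (Fin 2 → ℝ) → ℝ) x0 = 0 :=
  h []

/-- All derivatives of `P` vanish at `(x0, 0)`. -/
def Zr (x0 : Fin 2 → ℝ) (P : BB) : Prop :=
  ∀ w : List (Fin 2 ⊕ Fin 2), ev0 x0 (w.foldl (fun b i => del i b) P) = 0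

lemma Zr.del {x0 : Fin 2 → ℝ} {P : BB} (h : Zr x0 P) (i : Fin 2 ⊕ Fin 2) : Zr x0 (del i P) :=
  fun w => h (i :: w)

lemma coeff_foldl (w : List (Fin 2)) (P : BB) (m : Fin 2 →₀ ℕ) :
    coeff m ((w.map Sum.inl).foldl (fun b i => del i b) P) = pw w (coeff m P) := by
  induction w generalizing P with
  | nil => rfl
  | cons i w ih =>
    rw [List.map_cons, List.foldl_cons, ih, pw_cons, del_inl, coeff_cd]

lemma Zr.coeff_zero {x0 : Fin 2 → ℝ} {P : BB} (h : Zr x0 P) : coeff 0 P ∈ Fl x0 := by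
  intro w
  have := h (w.map Sum.inl)
  rw [ev0_apply, coeff_foldl] at this
  exact_mod_cast this

/-- The constant function as a smooth function. -/
def cst (c : ℝ) : Sm := ⟨fun _ => c, by
  show ContDiff ℝ (⊤ : ℕ∞) (fun _ : Fin 2 → ℝ => c)
  exact contDiff_const⟩

lemma Zr.coeff_mem {x0 : Fin 2 → ℝ} {P : BB} (h : Zr x0 P) (m : Fin 2 →₀ ℕ) :
    coeff m P ∈ Fl x0 := by
  obtain ⟨N, hN⟩ : ∃ N, N = m 0 + m 1 := ⟨_, rfl⟩
  induction N generalizing m P with
  | zero =>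
    have : m = 0 := by
      ext i
      fin_cases i
      · simp; omega
      · simp; omega
    rw [this]
    exact h.coeff_zero
  | succ N ih =>
    obtain ⟨i, hi⟩ : ∃ i : Fin 2, m i ≠ 0 := by
      by_contra hcon
      simp only [not_exists, not_not] at hcon
      have h0 := hcon 0
      have h1 := hcon 1
      omega
    have hm : m - Finsupp.single i 1 + Finsupp.single i 1 = m := by
      ext j
      by_cases hj : i = j
      · subst hj; simp; omega
      · simp [hj]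
    have h2 := ih (h.del (Sum.inr i)) (m - Finsupp.single i 1) (by
      fin_cases i
      · simp at hi ⊢; omega
      · simp at hi ⊢; omega)
    rw [del_inr, coeff_pderiv, hm] at h2
    have h3 := (Fl x0).mul_mem_left (cst (1 / (((m - Finsupp.single i 1 : Fin 2 →₀ ℕ) i : ℝ) + 1))) h2
    have e : cst (1 / (((m - Finsupp.single i 1 : Fin 2 →₀ ℕ) i : ℝ) + 1)) *
        (coeff m P * (((m - Finsupp.single i 1 : Fin 2 →₀ ℕ) i : Sm) + 1)) = coeff m P := by
      apply Subtype.ext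
      funext x
      have hne : (((m - Finsupp.single i 1 : Fin 2 →₀ ℕ) i : ℝ) + 1) ≠ 0 := by positivity
      have hcast : ∀ n : ℕ, ((n : Sm) : (Fin 2 → ℝ) → ℝ) x = n := by
        intro n
        rw [show ((n : Sm) : (Fin 2 → ℝ) → ℝ) = ((n : (Fin 2 → ℝ) → ℝ)) from
          map_natCast (Sm.subtype) n]
        rfl
      show (1 / (((m - Finsupp.single i 1 : Fin 2 →₀ ℕ) i : ℝ) + 1)) *
        (((coeff m P : Sm) : (Fin 2 → ℝ) → ℝ) x *
          ((((m - Finsupp.single i 1 : Fin 2 →₀ ℕ) i : Sm) : (Fin 2 → ℝ) → ℝ) x + 1)) = _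
      rw [hcast]
      field_simp
    rw [e] at h3
    exact h3

end Pool.Agent.W_MP_4b1b5d_h66
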