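import Mathlib

set_option autoImplicit false

/-!
# Abstract jets

`B` is a commutative ring with derivations `δ i` (`i` in a finite type) and a ring homomorphism
`ev : B → K` to a field of characteristic zero.  `jet δ ev m b` is the homogeneous part of degree
`m` of the formal Taylor series of `b`, defined by the Euler recursion.
-/

namespace Pool.Agent.W_MP_4b1b5d_h66

set_option linter.unusedSectionVars false

open MvPolynomial

section Jets

variable {ι : Type*} [Fintype ι] {B : Type*} [CommRing B] {K : Type*} [Field K] [CharZero K]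

/-- The homogeneous Taylor polynomial of degree `m`. -/
noncomputable def jet (δ : ι → Derivation ℤ B B) (ev : B →+* K) : ℕ → B → MvPolynomial ι K
  | 0, b => C (ev b)
  | (m + 1), b => C (((m : K) + 1)⁻¹) * ∑ i, X i * jet δ ev m (δ i b)

variable (δ : ι → Derivation ℤ B B) (ev : B →+* K)

@[simp] lemma jet_zero_index (b : B) : jet δ ev 0 b = C (ev b) := rfl

lemma jet_succ (m : ℕ) (b : B) :
    jet δ ev (m + 1) b = C (((m : K) + 1)⁻¹) * ∑ i, X i * jet δ ev m (δ i b) := rfl

lemma jet_euler (m : ℕ) (b : B) :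
    ∑ i, X i * jet δ ev m (δ i b) = C ((m : K) + 1) * jet δ ev (m + 1) b := by
  have h : ((m : K) + 1) ≠ 0 := by exact_mod_cast Nat.succ_ne_zero m
  rw [jet_succ, ← mul_assoc, ← C_mul, mul_inv_cancel₀ h, C_1, one_mul]

lemma jet_add (m : ℕ) (a b : B) : jet δ ev m (a + b) = jet δ ev m a + jet δ ev m b := by
  induction m generalizing a b with
  | zero => simp
  | succ m ih =>
    simp only [jet_succ, map_add, ih, mul_add, Finset.sum_add_distrib]

lemma jet_zero (m : ℕ) : jet δ ev m (0 : B) = 0 := by
  have h := jet_add δ ev m 0 0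
  rw [add_zero] at h
  exact left_eq_add.mp h

lemma jet_neg (m : ℕ) (a : B) : jet δ ev m (-a) = - jet δ ev m a := by
  have h := jet_add δ ev m a (-a)
  rw [add_neg_cancel, jet_zero] at h
  exact (neg_eq_of_add_eq_zero_right h.symm).symm

lemma jet_sub (m : ℕ) (a b : B) : jet δ ev m (a - b) = jet δ ev m a - jet δ ev m b := by
  rw [sub_eq_add_neg, jet_add, jet_neg, sub_eq_add_neg]

lemma jet_sum {κ : Type*} (s : Finset κ) (m : ℕ) (f : κ → B) :
    jet δ ev m (∑ k ∈ s, f k) = ∑ k ∈ s, jet δ ev m (f k) := by
  classical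
  induction s using Finset.induction_on with
  | empty => simp [jet_zero]
  | insert a s ha ih => rw [Finset.sum_insert ha, Finset.sum_insert ha, jet_add, ih]

/-- Product rule for jets. -/
lemma jet_mul (m : ℕ) (a b : B) :
    jet δ ev m (a * b)
      = ∑ q ∈ Finset.HasAntidiagonal.antidiagonal m, jet δ ev q.1 a * jet δ ev q.2 b := by
  induction m generalizing a b with
  | zero => simp
  | succ m ih =>
    have h : ((m : K) + 1) ≠ 0 := by exact_mod_cast Nat.succ_ne_zero m
    have hinj : Function.Injective (fun P : MvPolynomial ι K => C ((m : K) + 1) * P) := by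
      intro P Q hPQ
      have h2 := congrArg (fun P => C (((m : K) + 1)⁻¹) * P) hPQ
      simp only [← mul_assoc, ← C_mul, inv_mul_cancel₀ h, C_1, one_mul] at h2
      exact h2
    apply hinj
    simp only
    rw [← jet_euler]
    have e1 : ∀ i, jet δ ev m (δ i (a * b))
        = ∑ q ∈ Finset.HasAntidiagonal.antidiagonal m, jet δ ev q.1 a * jet δ ev q.2 (δ i b)
          + ∑ q ∈ Finset.HasAntidiagonal.antidiagonal m, jet δ ev q.1 b * jet δ ev q.2 (δ i a) := by
      intro i
      rw [Derivation.leibniz, jet_add, smul_eq_mul, smul_eq_mul, ih, ih]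
    simp only [e1, mul_add, Finset.mul_sum, Finset.sum_add_distrib]
    rw [Finset.sum_comm, Finset.sum_comm (s := Finset.univ) (t := Finset.HasAntidiagonal.antidiagonal m)
      (f := fun i q => X i * (jet δ ev q.1 b * jet δ ev q.2 (δ i a)))]
    have e2 : ∀ (c d : B) (q : ℕ × ℕ), ∑ i, X i * (jet δ ev q.1 c * jet δ ev q.2 (δ i d))
        = jet δ ev q.1 c * (C ((q.2 : K) + 1) * jet δ ev (q.2 + 1) d) := by
      intro c d q
      rw [← jet_euler, Finset.mul_sum]
      exact Finset.sum_congr rfl (fun i _ => by ring)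
    simp only [e2]
    have e3 : ∀ c d : B, ∑ q ∈ Finset.HasAntidiagonal.antidiagonal m,
          jet δ ev q.1 c * (C ((q.2 : K) + 1) * jet δ ev (q.2 + 1) d)
        = ∑ q ∈ Finset.HasAntidiagonal.antidiagonal (m + 1),
          C (q.2 : K) * (jet δ ev q.1 c * jet δ ev q.2 d) := by
      intro c d
      rw [Finset.Nat.sum_antidiagonal_succ']
      simp only [Nat.cast_zero, C_0, zero_mul, zero_add]
      refine Finset.sum_congr rfl (fun q _ => ?_)
      push_cast
      ring
    rw [e3, e3]
    have e4 : ∑ q ∈ Finset.HasAntidiagonal.antidiagonal (m + 1),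
          C (q.2 : K) * (jet δ ev q.1 b * jet δ ev q.2 a)
        = ∑ q ∈ Finset.HasAntidiagonal.antidiagonal (m + 1),
          C (q.1 : K) * (jet δ ev q.1 a * jet δ ev q.2 b) := by
      rw [← Finset.Nat.sum_antidiagonal_swap]
      refine Finset.sum_congr rfl (fun q _ => ?_)
      simp only [Prod.fst_swap, Prod.snd_swap]
      ring
    rw [e4, ← Finset.sum_add_distrib]
    refine Finset.sum_congr rfl (fun q hq => ?_)
    have hq' : q.1 + q.2 = m + 1 := Finset.HasAntidiagonal.mem_antidiagonal.mp hq
    have hc : (C ((m : K) + 1) : MvPolynomial ι K) = C (q.1 : K) + C (q.2 : K) := by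
      rw [← C_add, ← Nat.cast_add, hq']; push_cast; rfl
    rw [hc]
    ring

/-- If the derivations commute, the partial derivatives of a jet are the jets of the derivatives. -/
lemma pderiv_jet (hδ : ∀ i j b, δ i (δ j b) = δ j (δ i b)) (m : ℕ) (i : ι) (b : B) :
    pderiv i (jet δ ev (m + 1) b) = jet δ ev m (δ i b) := by
  classical
  induction m generalizing i b with
  | zero =>
    rw [jet_succ, pderiv_C_mul]
    simp only [jet_zero_index, map_sum, Nat.cast_zero, zero_add, inv_one]
    rw [Finset.sum_eq_single i]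
    · simp
    · intro j _ hj
      rw [Derivation.leibniz, pderiv_C, pderiv_X_of_ne hj]
      simp
    · intro h; exact absurd (Finset.mem_univ i) h
  | succ m ih =>
    have h : ((m : K) + 1 + 1) ≠ 0 := by exact_mod_cast Nat.succ_ne_zero (m + 1)
    rw [jet_succ, pderiv_C_mul, map_sum]
    have e1 : ∀ j, pderiv i (X j * jet δ ev (m + 1) (δ j b))
        = X j * jet δ ev m (δ j (δ i b)) + (if j = i then jet δ ev (m + 1) (δ i b) else 0) := by
      intro j
      rw [Derivation.leibniz, ih, hδ i j b, smul_eq_mul, smul_eq_mul]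
      by_cases hj : j = i
      · subst hj; simp
      · rw [pderiv_X_of_ne hj]; simp [hj]
    simp only [e1, Finset.sum_add_distrib, Finset.sum_ite_eq', Finset.mem_univ, if_true]
    rw [jet_euler]
    have : (C ((m : K) + 1) * jet δ ev (m + 1) (δ i b) + jet δ ev (m + 1) (δ i b)
        : MvPolynomial ι K) = C ((m : K) + 1 + 1) * jet δ ev (m + 1) (δ i b) := by
      have h3 : (C ((m : K) + 1 + 1) : MvPolynomial ι K) = C ((m : K) + 1) + 1 := by
        rw [← C_1, ← C_add]
      rw [h3]; ring
    rw [this, ← mul_assoc, ← C_mul]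
    push_cast
    rw [inv_mul_cancel₀ h, C_1, one_mul]

end Jets

end Pool.Agent.W_MP_4b1b5d_h66
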