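import Pool.Agent.W_MP_4b1b5d_h66.Trans

set_option autoImplicit false

/-!
# Integrals of natural systems are even in the momenta near a non-resonant critical point
-/

namespace Pool.Agent.W_MP_4b1b5d_h66

open MvPolynomial

/-- The Hessian matrix in coordinates. -/
noncomputable def hess (U : (Fin 2 → ℝ) → ℝ) (x0 : Fin 2 → ℝ) : Matrix (Fin 2) (Fin 2) ℝ :=
  Matrix.of (fun k l => fderiv ℝ (fun x => fderiv ℝ U x (Pi.single k 1)) x0 (Pi.single l 1))

/-- Real non-resonance. -/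
def NonResR (M : Matrix (Fin 2) (Fin 2) ℝ) : Prop :=
  ∀ k l : ℤ, ¬ (k = 0 ∧ l = 0) →
    ((k : ℝ) ^ 2 + (l : ℝ) ^ 2) ^ 2 * M.det ≠ (k : ℝ) ^ 2 * (l : ℝ) ^ 2 * M.trace ^ 2

lemma nonResR_of_det_neg {M : Matrix (Fin 2) (Fin 2) ℝ} (h : M.det < 0) : NonResR M := by
  intro k l hkl he
  have h1 : 0 < ((k : ℝ) ^ 2 + (l : ℝ) ^ 2) ^ 2 := by
    have : (k : ℝ) ≠ 0 ∨ (l : ℝ) ≠ 0 := by
      by_contra hcon
      simp only [not_or, not_not] at hcon
      exact hkl ⟨by exact_mod_cast hcon.1, by exact_mod_cast hcon.2⟩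
    have h2 : 0 < (k : ℝ) ^ 2 + (l : ℝ) ^ 2 := by
      rcases this with h | h
      · have := pow_pos (abs_pos.mpr h) 2
        rw [sq_abs] at this
        nlinarith [sq_nonneg (l : ℝ)]
      · have := pow_pos (abs_pos.mpr h) 2
        rw [sq_abs] at this
        nlinarith [sq_nonneg (k : ℝ)]
    positivity
  have h3 : 0 ≤ (k : ℝ) ^ 2 * (l : ℝ) ^ 2 * M.trace ^ 2 := by positivity
  nlinarith [mul_pos_of_neg_of_neg h (neg_lt_zero.mpr h1)]

lemma nonRes_of_real {S G : Matrix (Fin 2) (Fin 2) ℝ} (h : NonResR (S * G)) :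
    NonRes (Matrix.of (fun k l => ((S k l : ℝ) : ℂ)) * Matrix.of (fun k l => ((G k l : ℝ) : ℂ))) := by
  intro k l hkl he
  apply h k l hkl
  have hd : (Matrix.of (fun k l => ((S k l : ℝ) : ℂ)) *
      Matrix.of (fun k l => ((G k l : ℝ) : ℂ)) : Matrix (Fin 2) (Fin 2) ℂ).det
      = (((S * G).det : ℝ) : ℂ) := by
    simp only [Matrix.det_fin_two, Matrix.mul_apply, Fin.sum_univ_two, Matrix.of_apply]
    push_cast
    ring
  have ht : (Matrix.of (fun k l => ((S k l : ℝ) : ℂ)) *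
      Matrix.of (fun k l => ((G k l : ℝ) : ℂ)) : Matrix (Fin 2) (Fin 2) ℂ).trace
      = (((S * G).trace : ℝ) : ℂ) := by
    simp only [Matrix.trace_fin_two, Matrix.mul_apply, Fin.sum_univ_two, Matrix.of_apply]
    push_cast
    ring
  rw [hd, ht] at he
  exact_mod_cast he

theorem even_of_nonres (ginv : (Fin 2 → ℝ) → Matrix (Fin 2) (Fin 2) ℝ) (U : (Fin 2 → ℝ) → ℝ)
    (H : (Fin 2 → ℝ) → (Fin 2 → ℝ) → ℝ) (hpos : ∀ x, (ginv x).PosDef)
    (hgs : ∀ i j, ContDiff ℝ (⊤ : ℕ∞) (fun x => ginv x i j)) (hU : ContDiff ℝ (⊤ : ℕ∞) U)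
    (hH : ∀ x p, H x p = (1 / 2 : ℝ) * ∑ i, ∑ j, ginv x i j * p i * p j + U x)
    (x0 : Fin 2 → ℝ) (hcrit : ∀ k, fderiv ℝ U x0 (Pi.single k 1) = 0)
    (hres : NonResR (hess U x0 * ginv x0))
    (F : (Fin 2 → ℝ) → MvPolynomial (Fin 2) ℝ)
    (hF : ∀ m, ContDiff ℝ (⊤ : ℕ∞) (fun x => (F x).coeff m))
    (hN : ∃ N : ℕ, ∀ x, (F x).totalDegree ≤ N)
    (hint : ∀ x p : Fin 2 → ℝ, ∑ i : Fin 2,
          (deriv (fun t => H x (Function.update p i t)) (p i) *
              deriv (fun t => MvPolynomial.eval p (F (Function.update x i t))) (x i) -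
            deriv (fun t => H (Function.update x i t) p) (x i) *
              deriv (fun t => MvPolynomial.eval (Function.update p i t) (F x)) (p i)) = 0)
    (x p : Fin 2 → ℝ) : MvPolynomial.eval (-p) (F x) = MvPolynomial.eval p (F x) := by
  obtain ⟨N, hN⟩ := hN
  obtain ⟨P, hP⟩ := exists_BB F hF N hN
  let g : Fin 2 → Fin 2 → Sm := fun i j => ⟨fun x => ginv x i j, hgs i j⟩
  let Us : Sm := ⟨U, hU⟩
  have hdet : ∀ x, (ginv x).det ≠ 0 := fun x => (hpos x).det_pos.ne'
  have hdetf : ∀ x, (ginv x).det = ginv x 0 0 * ginv x 1 1 - ginv x 0 1 * ginv x 1 0 :=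
    fun x => Matrix.det_fin_two _
  have hds : ContDiff ℝ (⊤ : ℕ∞) (fun x => ((ginv x).det)⁻¹) := by
    have h1 : ContDiff ℝ (⊤ : ℕ∞) (fun x => (ginv x).det) := by
      simp only [hdetf]
      exact ((hgs 0 0).mul (hgs 1 1)).sub ((hgs 0 1).mul (hgs 1 0))
    exact h1.inv hdet
  let d : Sm := ⟨fun x => ((ginv x).det)⁻¹, hds⟩
  have hd : d * (g 0 0 * g 1 1 - g 0 1 * g 1 0) = 1 := by
    apply Subtype.ext
    funext x
    show ((ginv x).det)⁻¹ * (ginv x 0 0 * ginv x 1 1 - ginv x 0 1 * ginv x 1 0) = 1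
    rw [← hdetf, inv_mul_cancel₀ (hdet x)]
  have hsym : ∀ i j, g i j = g j i := by
    intro i j
    apply Subtype.ext
    funext x
    show ginv x i j = ginv x j i
    have h := (hpos x).isHermitian.apply i j
    simpa using h.symm
  have hhalf : cst (1 / 2) + cst (1 / 2) = 1 := by
    apply Subtype.ext
    funext x
    show (1 / 2 : ℝ) + 1 / 2 = 1
    norm_num
  have hHE : ∀ x p, H x p = E x p (HH (cst (1 / 2)) g Us) := by
    intro x p
    rw [hH, HH, map_add, map_mul, E_C, E_C, map_sum]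
    congr 1
    show (1 / 2 : ℝ) * _ = (1 / 2 : ℝ) * _
    congr 1
    refine Finset.sum_congr rfl (fun i _ => ?_)
    rw [map_sum]
    refine Finset.sum_congr rfl (fun j _ => ?_)
    rw [map_mul, map_mul, E_C, E_X, E_X, ← mul_assoc]
  have hFE : ∀ x p, MvPolynomial.eval p (F x) = E x p P := by
    intro x p
    rw [E_eq, hP]
  have hbr : bra (HH (cst (1 / 2)) g Us) P = 0 := by
    apply E_ext
    intro x p
    rw [bra, map_sum, ← hint x p]
    refine Finset.sum_congr rfl (fun i _ => ?_)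
    simp only [hHE, hFE]
    rw [(E_pderiv x p i _).deriv, (E_pderiv x p i _).deriv, (E_cd x p i _).deriv,
      (E_cd x p i _).deriv, map_sub, map_mul, map_mul]
    rfl
  have hrev := core (cst (1 / 2)) hhalf g hsym d hd Us P hbr x0 hcrit (nonRes_of_real hres)
  rw [hFE, hFE, ← E_rev, hrev]

lemma coeff_negate (q : MvPolynomial (Fin 2) ℝ) (m : Fin 2 →₀ ℕ) :
    coeff m (aeval (fun k => - X k) q : MvPolynomial (Fin 2) ℝ)
      = (-1) ^ (m 0 + m 1) * coeff m q := by
  classical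
  induction q using MvPolynomial.induction_on' with
  | monomial u a =>
    have h1 : (aeval (fun k => - X k) (monomial u a) : MvPolynomial (Fin 2) ℝ)
        = monomial u ((-1) ^ (u 0 + u 1) * a) := by
      rw [aeval_monomial, Finsupp.prod_fintype _ _ (by intro i; simp), Fin.prod_univ_two]
      rw [neg_pow (X 0 : MvPolynomial (Fin 2) ℝ), neg_pow (X 1 : MvPolynomial (Fin 2) ℝ)]
      have : (monomial u ((-1) ^ (u 0 + u 1) * a) : MvPolynomial (Fin 2) ℝ)
          = C ((-1) ^ (u 0 + u 1) * a) * (X 0 ^ u 0 * X 1 ^ u 1) := by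
        rw [MvPolynomial.monomial_eq, Finsupp.prod_fintype _ _ (by intro i; simp),
          Fin.prod_univ_two]
      rw [this, MvPolynomial.algebraMap_eq, C_mul, C_pow, C_neg, C_1]
      ring
    rw [h1, coeff_monomial, coeff_monomial]
    split_ifs with h
    · rw [h]
    · simp
  | add p q hp hq => rw [map_add, coeff_add, coeff_add, hp, hq]; ring

lemma eval_negate (q : MvPolynomial (Fin 2) ℝ) (p : Fin 2 → ℝ) :
    MvPolynomial.eval p (aeval (fun k => - X k) q : MvPolynomial (Fin 2) ℝ)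
      = MvPolynomial.eval (-p) q := by
  induction q using MvPolynomial.induction_on with
  | C a => simp
  | add P Q hP hQ => rw [map_add, map_add, map_add, hP, hQ]
  | mul_X P j hP =>
    rw [map_mul, map_mul, map_mul, hP, aeval_X, map_neg, eval_X, eval_X]
    rfl

/-- An even polynomial does not have odd total degree. -/
lemma not_odd_of_even {q : MvPolynomial (Fin 2) ℝ}
    (h : ∀ p, MvPolynomial.eval (-p) q = MvPolynomial.eval p q) {n : ℕ} (hn : Odd n)
    (hq : q.totalDegree = n) : False := by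
  have hr : (aeval (fun k => - X k) q : MvPolynomial (Fin 2) ℝ) = q := by
    apply MvPolynomial.funext
    intro p
    rw [eval_negate, h]
  have hne : q.support.Nonempty := by
    rw [Finset.nonempty_iff_ne_empty]
    intro h0
    rw [MvPolynomial.support_eq_empty.mp h0, totalDegree_zero] at hq
    rw [← hq] at hn
    exact absurd hn (by decide)
  obtain ⟨m, hm, hmax⟩ := Finset.exists_mem_eq_sup q.support hne
    (fun s => s.sum fun _ e => e)
  have hdeg : m 0 + m 1 = n := by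
    have : q.totalDegree = m.sum fun _ e => e := hmax
    rw [Finsupp.sum_fintype _ _ (fun _ => rfl), Fin.sum_univ_two] at this
    omega
  have hc := coeff_negate q m
  rw [hr, hdeg, hn.neg_one_pow] at hc
  apply mem_support_iff.mp hm
  linarith

end Pool.Agent.W_MP_4b1b5d_h66
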