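import Pool.Agent.W_MP_4b1b5d_h66.SmoothRing

set_option autoImplicit false

/-!
# The ring of polynomials in the momenta with smooth coefficients
-/

namespace Pool.Agent.W_MP_4b1b5d_h66

open MvPolynomial

section CD

variable {σ : Type*} {R : Type*} [CommRing R] (D : Derivation ℤ R R)

/-- Apply a derivation to the coefficients. -/
noncomputable def cdFun (P : MvPolynomial σ R) : MvPolynomial σ R :=
  ∑ m ∈ P.support, monomial m (D (coeff m P))

lemma coeff_cdFun (P : MvPolynomial σ R) (m : σ →₀ ℕ) : coeff m (cdFun D P) = D (coeff m P) := by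
  classical
  rw [cdFun, coeff_sum]
  simp only [coeff_monomial]
  rw [Finset.sum_ite_eq']
  split_ifs with h
  · rfl
  · rw [notMem_support_iff.mp h, map_zero]

/-- Coefficientwise derivation. -/
noncomputable def cd : Derivation ℤ (MvPolynomial σ R) (MvPolynomial σ R) :=
  Derivation.mk' (AddMonoidHom.toIntLinearMap
    { toFun := cdFun D
      map_zero' := by ext m; rw [coeff_cdFun]; simp
      map_add' := fun P Q => by
        ext m; rw [coeff_cdFun, coeff_add, map_add, coeff_add, coeff_cdFun, coeff_cdFun] }) (by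
    classical
    intro P Q
    ext m
    show coeff m (cdFun D (P * Q)) = coeff m (P * cdFun D Q + Q * cdFun D P)
    rw [coeff_cdFun, coeff_mul, map_sum, coeff_add, mul_comm Q (cdFun D P), coeff_mul, coeff_mul,
      ← Finset.sum_add_distrib]
    refine Finset.sum_congr rfl (fun q _ => ?_)
    rw [Derivation.leibniz, coeff_cdFun, coeff_cdFun, smul_eq_mul, smul_eq_mul]
    ring)

@[simp] lemma coeff_cd (P : MvPolynomial σ R) (m : σ →₀ ℕ) : coeff m (cd D P) = D (coeff m P) :=
  coeff_cdFun D P m

@[simp] lemma cd_X (i : σ) : cd D (X i : MvPolynomial σ R) = 0 := by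
  classical
  ext m
  rw [coeff_cd, coeff_X, coeff_zero]
  split_ifs
  · exact Derivation.map_one_eq_zero D
  · exact map_zero D

@[simp] lemma cd_C (a : R) : cd D (C a : MvPolynomial σ R) = C (D a) := by
  classical
  ext m
  rw [coeff_cd, coeff_C, coeff_C]
  split_ifs
  · rfl
  · exact map_zero D

lemma cd_pderiv (i : σ) (P : MvPolynomial σ R) : cd D (pderiv i P) = pderiv i (cd D P) := by
  ext m
  rw [coeff_cd, coeff_pderiv, coeff_pderiv, Derivation.leibniz, coeff_cd]
  have h : D ((m i : R) + 1) = 0 := by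
    rw [map_add, Derivation.map_natCast, Derivation.map_one_eq_zero, add_zero]
  rw [h, smul_zero, zero_add, smul_eq_mul, mul_comm]

lemma cd_comm {D D' : Derivation ℤ R R} (h : ∀ a, D (D' a) = D' (D a)) (P : MvPolynomial σ R) :
    cd D (cd D' P) = cd D' (cd D P) := by
  ext m
  simp only [coeff_cd, h]

end CD

/-- Polynomials in the momenta with smooth coefficients. -/
abbrev BB : Type := MvPolynomial (Fin 2) Sm

/-- The four derivations: positions `inl`, momenta `inr`. -/
noncomputable def del : Fin 2 ⊕ Fin 2 → Derivation ℤ BB BB :=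
  Sum.elim (fun k => cd (par k))
    (fun k => (pderiv k : Derivation Sm BB BB).restrictScalars ℤ)

@[simp] lemma del_inl (k : Fin 2) (P : BB) : del (Sum.inl k) P = cd (par k) P := rfl

@[simp] lemma del_inr (k : Fin 2) (P : BB) : del (Sum.inr k) P = pderiv k P := rfl

lemma del_comm (i j : Fin 2 ⊕ Fin 2) (P : BB) : del i (del j P) = del j (del i P) := by
  rcases i with i | i <;> rcases j with j | j
  · exact cd_comm (par_comm i j) P
  · exact cd_pderiv (par i) j P
  · exact (cd_pderiv (par j) i P).symm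
  · simp only [del_inr]
    ext m
    simp only [coeff_pderiv]
    by_cases h : i = j
    · subst h; rfl
    · have h1 : (Finsupp.single i 1 : Fin 2 →₀ ℕ) j = 0 := by simp [h]
      have h2 : (Finsupp.single j 1 : Fin 2 →₀ ℕ) i = 0 := by simp [Ne.symm h]
      simp only [Finsupp.add_apply, h1, h2, add_zero]
      rw [add_right_comm]
      ring_nf

/-- Evaluation at `(x0, p = 0)`. -/
noncomputable def ev0 (x0 : Fin 2 → ℝ) : BB →+* ℂ :=
  (Complex.ofRealHom.comp ((Pi.evalRingHom (fun _ : Fin 2 → ℝ => ℝ) x0).comp Sm.subtype)).comp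
    (constantCoeff : MvPolynomial (Fin 2) Sm →+* Sm)

lemma ev0_apply (x0 : Fin 2 → ℝ) (P : BB) :
    ev0 x0 P = (((coeff 0 P : Sm) : (Fin 2 → ℝ) → ℝ) x0 : ℂ) := rfl

/-- Reversal of the momenta on `BB`. -/
noncomputable def rev : BB →ₐ[Sm] BB := aeval (fun k => - X k)

lemma coeff_rev (P : BB) (m : Fin 2 →₀ ℕ) :
    coeff m (rev P) = (-1) ^ (m 0 + m 1) * coeff m P := by
  classical
  induction P using MvPolynomial.induction_on' with
  | monomial u a =>
    have h1 : rev (monomial u a) = monomial u ((-1) ^ (u 0 + u 1) * a) := by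
      rw [rev, aeval_monomial, Finsupp.prod_fintype _ _ (by intro i; simp), Fin.prod_univ_two]
      rw [neg_pow (X 0 : BB), neg_pow (X 1 : BB)]
      have : (monomial u ((-1) ^ (u 0 + u 1) * a) : BB)
          = C ((-1) ^ (u 0 + u 1) * a) * (X 0 ^ u 0 * X 1 ^ u 1) := by
        rw [MvPolynomial.monomial_eq, Finsupp.prod_fintype _ _ (by intro i; simp),
          Fin.prod_univ_two]
      rw [this, MvPolynomial.algebraMap_eq, C_mul, C_pow, C_neg, C_1]
      ring
    rw [h1, coeff_monomial, coeff_monomial]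
    split_ifs with h
    · rw [h]
    · simp
  | add p q hp hq => rw [map_add, coeff_add, coeff_add, hp, hq]; ring

lemma cd_rev (D : Derivation ℤ Sm Sm) (P : BB) : cd D (rev P) = rev (cd D P) := by
  ext m : 1
  rw [coeff_cd, coeff_rev, coeff_rev, coeff_cd, Derivation.leibniz]
  have h : D ((-1 : Sm) ^ (m 0 + m 1)) = 0 := by
    rcases neg_one_pow_eq_or Sm (m 0 + m 1) with h | h
    · rw [h]; exact Derivation.map_one_eq_zero D
    · rw [h, map_neg, Derivation.map_one_eq_zero, neg_zero]
  rw [h, smul_zero, add_zero, smul_eq_mul]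

lemma pderiv_rev (k : Fin 2) (P : BB) : pderiv k (rev P) = - rev (pderiv k P) := by
  ext m : 1
  rw [coeff_pderiv, coeff_neg, coeff_rev, coeff_rev, coeff_pderiv]
  have h : (m + Finsupp.single k 1 : Fin 2 →₀ ℕ) 0 + (m + Finsupp.single k 1 : Fin 2 →₀ ℕ) 1
      = m 0 + m 1 + 1 := by
    fin_cases k <;> simp <;> omega
  rw [h, pow_succ]
  ring

lemma ev0_rev (x0 : Fin 2 → ℝ) (P : BB) : ev0 x0 (rev P) = ev0 x0 P := by
  rw [ev0_apply, ev0_apply, coeff_rev]
  simp

end Pool.Agent.W_MP_4b1b5d_h66
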