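import Mathlib

set_option autoImplicit false

/-!
# The ring of smooth functions on the plane and unique continuation for closed systems
-/

namespace Pool.Agent.W_MP_4b1b5d_h66

/-- The ring of smooth functions on the plane. -/
def Sm : Subring ((Fin 2 → ℝ) → ℝ) where
  carrier := {f | ContDiff ℝ (⊤ : ℕ∞) f}
  mul_mem' {a b} ha hb := by
    have ha' : ContDiff ℝ (⊤ : ℕ∞) a := ha
    have hb' : ContDiff ℝ (⊤ : ℕ∞) b := hb
    exact ha'.mul hb'
  one_mem' := by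
    show ContDiff ℝ (⊤ : ℕ∞) (fun _ : Fin 2 → ℝ => (1 : ℝ))
    exact contDiff_const
  add_mem' {a b} ha hb := by
    have ha' : ContDiff ℝ (⊤ : ℕ∞) a := ha
    have hb' : ContDiff ℝ (⊤ : ℕ∞) b := hb
    exact ha'.add hb'
  zero_mem' := by
    show ContDiff ℝ (⊤ : ℕ∞) (fun _ : Fin 2 → ℝ => (0 : ℝ))
    exact contDiff_const
  neg_mem' {a} ha := by
    have ha' : ContDiff ℝ (⊤ : ℕ∞) a := ha
    exact ha'.neg

lemma sm_contDiff (f : Sm) : ContDiff ℝ (⊤ : ℕ∞) (f : (Fin 2 → ℝ) → ℝ) := f.2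

lemma sm_diff (f : Sm) : Differentiable ℝ (f : (Fin 2 → ℝ) → ℝ) :=
  (sm_contDiff f).differentiable (by simp)

/-- The partial derivative as a map. -/
noncomputable def parFun (i : Fin 2) (f : Sm) : Sm :=
  ⟨fun x => fderiv ℝ (f : (Fin 2 → ℝ) → ℝ) x (Pi.single i 1), by
    have h : ContDiff ℝ (⊤ : ℕ∞) (fderiv ℝ (f : (Fin 2 → ℝ) → ℝ)) :=
      (sm_contDiff f).fderiv_right (by simp)
    exact h.clm_apply contDiff_const⟩

/-- The partial derivative as an additive map. -/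
noncomputable def parAdd (i : Fin 2) : Sm →+ Sm where
  toFun := parFun i
  map_zero' := by
    apply Subtype.ext
    funext x
    show fderiv ℝ (fun _ : Fin 2 → ℝ => (0 : ℝ)) x (Pi.single i 1) = 0
    simp
  map_add' f g := by
    apply Subtype.ext
    funext x
    show fderiv ℝ (fun y => (f : (Fin 2 → ℝ) → ℝ) y + (g : (Fin 2 → ℝ) → ℝ) y) x (Pi.single i 1)
      = fderiv ℝ (f : (Fin 2 → ℝ) → ℝ) x (Pi.single i 1)
        + fderiv ℝ (g : (Fin 2 → ℝ) → ℝ) x (Pi.single i 1)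
    rw [fderiv_fun_add (sm_diff f).differentiableAt (sm_diff g).differentiableAt]
    rfl

/-- Partial derivatives as derivations of the ring of smooth functions. -/
noncomputable def par (i : Fin 2) : Derivation ℤ Sm Sm :=
  Derivation.mk' (parAdd i).toIntLinearMap (by
    intro f g
    apply Subtype.ext
    funext x
    show fderiv ℝ (fun y => (f : (Fin 2 → ℝ) → ℝ) y * (g : (Fin 2 → ℝ) → ℝ) y) x (Pi.single i 1)
      = (f : (Fin 2 → ℝ) → ℝ) x * fderiv ℝ (g : (Fin 2 → ℝ) → ℝ) x (Pi.single i 1)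
        + (g : (Fin 2 → ℝ) → ℝ) x * fderiv ℝ (f : (Fin 2 → ℝ) → ℝ) x (Pi.single i 1)
    rw [fderiv_fun_mul (sm_diff f).differentiableAt (sm_diff g).differentiableAt]
    simp)

lemma par_apply (i : Fin 2) (f : Sm) (x : Fin 2 → ℝ) :
    (par i f : (Fin 2 → ℝ) → ℝ) x = fderiv ℝ (f : (Fin 2 → ℝ) → ℝ) x (Pi.single i 1) := rfl

lemma par_comm (i j : Fin 2) (f : Sm) : par i (par j f) = par j (par i f) := by
  apply Subtype.ext
  funext x
  rw [par_apply, par_apply]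
  have h : ContDiff ℝ (⊤ : ℕ∞) (fderiv ℝ (f : (Fin 2 → ℝ) → ℝ)) :=
    (sm_contDiff f).fderiv_right (by simp)
  have hd : DifferentiableAt ℝ (fderiv ℝ (f : (Fin 2 → ℝ) → ℝ)) x :=
    (h.differentiable (by simp)).differentiableAt
  have e : ∀ v w : Fin 2 → ℝ, fderiv ℝ (fun y => fderiv ℝ (f : (Fin 2 → ℝ) → ℝ) y v) x w
      = fderiv ℝ (fderiv ℝ (f : (Fin 2 → ℝ) → ℝ)) x w v := by
    intro v w
    rw [fderiv_clm_apply hd (differentiableAt_const v)]
    simp
  show fderiv ℝ (fun y => fderiv ℝ (f : (Fin 2 → ℝ) → ℝ) y (Pi.single j 1)) x (Pi.single i 1)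
    = fderiv ℝ (fun y => fderiv ℝ (f : (Fin 2 → ℝ) → ℝ) y (Pi.single i 1)) x (Pi.single j 1)
  rw [e, e]
  have hs : IsSymmSndFDerivAt ℝ (f : (Fin 2 → ℝ) → ℝ) x :=
    ((sm_contDiff f).contDiffAt).isSymmSndFDerivAt (by
      rw [minSmoothness_of_isRCLikeNormedField]
      have h2 : ((2 : ℕ∞) : WithTop ℕ∞) ≤ ((⊤ : ℕ∞) : WithTop ℕ∞) := WithTop.coe_le_coe.mpr le_top
      exact h2)
  exact hs.eq _ _

/-- Unique continuation: a finitely generated ideal of smooth functions, stable under the partial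
derivatives and vanishing at one point, is zero. -/
theorem ideal_zero (I : Ideal Sm) (hfg : I.FG) (hpar : ∀ i, ∀ h ∈ I, par i h ∈ I)
    (x0 : Fin 2 → ℝ) (h0 : ∀ h ∈ I, (h : (Fin 2 → ℝ) → ℝ) x0 = 0) : ∀ h ∈ I, h = 0 := by
  classical
  obtain ⟨s, hs⟩ := hfg
  have hsI : ∀ g ∈ s, g ∈ I := fun g hg => hs ▸ Ideal.subset_span hg
  -- coefficients
  have hc : ∀ i, ∀ g : s, ∃ c : Sm → Sm, par i (g : Sm) = ∑ g' ∈ s, c g' * g' := by
    intro i g
    have h1 := hpar i g (hsI g g.2)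
    rw [← hs] at h1
    obtain ⟨c, -, hcs⟩ := Submodule.mem_span_finset.mp h1
    exact ⟨c, by rw [← hcs]; rfl⟩
  choose c hc using hc
  suffices hg : ∀ g : s, ∀ v : Fin 2 → ℝ, ((g : Sm) : (Fin 2 → ℝ) → ℝ) (x0 + v) = 0 by
    have hz : ∀ g ∈ s, g = 0 := by
      intro g hgs
      apply Subtype.ext
      funext y
      have := hg ⟨g, hgs⟩ (y - x0)
      rw [add_sub_cancel] at this
      exact this
    intro h hh
    rw [← hs] at hh
    have : Ideal.span (s : Set Sm) ≤ ⊥ := by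
      rw [Ideal.span_le]
      intro g hg
      exact hz g hg
    exact this hh
  intro g v
  -- the vector valued function along the ray
  let γ : ℝ → (Fin 2 → ℝ) := fun t => x0 + t • v
  let u : ℝ → (s → ℝ) := fun t g => ((g : Sm) : (Fin 2 → ℝ) → ℝ) (γ t)
  let u' : ℝ → (s → ℝ) := fun t g => ∑ i, v i * (par i (g : Sm) : (Fin 2 → ℝ) → ℝ) (γ t)
  have hγ : ∀ t, HasDerivAt γ v t := by
    intro t
    have h1 : HasDerivAt (fun t : ℝ => t • v) ((1 : ℝ) • v) t := (hasDerivAt_id t).smul_const v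
    rw [one_smul] at h1
    exact h1.const_add x0
  have hv : v = ∑ i, v i • (Pi.single i (1 : ℝ) : Fin 2 → ℝ) := by
    ext j
    rw [Finset.sum_apply]
    simp [Pi.single_apply]
  have hu : ∀ t, HasDerivAt u (u' t) t := by
    intro t
    rw [hasDerivAt_pi]
    intro g
    have h1 := ((sm_diff (g : Sm) (γ t)).hasFDerivAt).comp_hasDerivAt t (hγ t)
    have h2 : fderiv ℝ ((g : Sm) : (Fin 2 → ℝ) → ℝ) (γ t) v = u' t g := by
      conv_lhs => rw [hv]
      rw [map_sum]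
      refine Finset.sum_congr rfl (fun i _ => ?_)
      rw [map_smul, smul_eq_mul, par_apply]
    rw [h2] at h1
    exact h1
  have hγc : Continuous γ := continuous_const.add (continuous_id.smul continuous_const)
  -- bound for the coefficients
  have hK : ∃ K : ℝ, 0 ≤ K ∧ ∀ t ∈ Set.Icc (0 : ℝ) 1, ∀ i, ∀ g : s, ∀ g' : s,
      |(c i g g' : (Fin 2 → ℝ) → ℝ) (γ t)| ≤ K := by
    have h1 : ∀ q : (Fin 2 × s) × s, ∃ K : ℝ, ∀ t ∈ Set.Icc (0 : ℝ) 1,
        |(c q.1.1 q.1.2 q.2 : (Fin 2 → ℝ) → ℝ) (γ t)| ≤ K := by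
      intro q
      have hcont : ContinuousOn (fun t => (c q.1.1 q.1.2 q.2 : (Fin 2 → ℝ) → ℝ) (γ t))
          (Set.Icc (0 : ℝ) 1) :=
        (((sm_contDiff (c q.1.1 q.1.2 q.2)).continuous).comp hγc).continuousOn
      obtain ⟨K, hK⟩ := (isCompact_Icc).exists_bound_of_continuousOn hcont
      exact ⟨K, fun t ht => by have h2 := hK t ht; rwa [Real.norm_eq_abs] at h2⟩
    choose Kf hKf using h1
    refine ⟨∑ q, |Kf q|, Finset.sum_nonneg (fun q _ => abs_nonneg _), ?_⟩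
    intro t ht i g g'
    calc _ ≤ Kf ((i, g), g') := hKf ((i, g), g') t ht
      _ ≤ |Kf ((i, g), g')| := le_abs_self _
      _ ≤ _ := Finset.single_le_sum (f := fun q => |Kf q|) (fun q _ => abs_nonneg _)
          (Finset.mem_univ _)
  obtain ⟨K, hK0, hK⟩ := hK
  have hbound : ∀ t ∈ Set.Ico (0 : ℝ) 1,
      ‖u' t‖ ≤ ((∑ i, |v i|) * (s.card * K)) * ‖u t‖ := by
    intro t ht
    have ht' : t ∈ Set.Icc (0 : ℝ) 1 := ⟨ht.1, ht.2.le⟩
    rw [pi_norm_le_iff_of_nonneg (mul_nonneg (mul_nonneg (Finset.sum_nonneg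
      (fun i _ => abs_nonneg _)) (mul_nonneg (Nat.cast_nonneg _) hK0)) (norm_nonneg _))]
    intro g
    have h1 : ∀ i, |(par i (g : Sm) : (Fin 2 → ℝ) → ℝ) (γ t)| ≤ (s.card * K) * ‖u t‖ := by
      intro i
      rw [hc i g]
      have e : ((∑ g' ∈ s, c i g g' * g' : Sm) : (Fin 2 → ℝ) → ℝ) (γ t)
          = ∑ g' : s, (c i g g' : (Fin 2 → ℝ) → ℝ) (γ t) * u t g' := by
        rw [← Finset.sum_coe_sort s (fun g' => c i g g' * g')]
        rw [AddSubmonoidClass.coe_finsetSum, Finset.sum_apply]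
        rfl
      rw [e]
      calc |∑ g' : s, (c i g g' : (Fin 2 → ℝ) → ℝ) (γ t) * u t g'|
          ≤ ∑ g' : s, |(c i g g' : (Fin 2 → ℝ) → ℝ) (γ t) * u t g'| :=
            Finset.abs_sum_le_sum_abs _ _
        _ ≤ ∑ _g' : s, K * ‖u t‖ := by
            refine Finset.sum_le_sum (fun g' _ => ?_)
            rw [abs_mul]
            exact mul_le_mul (hK t ht' i g g') (norm_le_pi_norm (u t) g') (abs_nonneg _) hK0
        _ = (s.card * K) * ‖u t‖ := by
            rw [Finset.sum_const, Finset.card_univ, Fintype.card_coe, nsmul_eq_mul, mul_assoc]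
    rw [Real.norm_eq_abs]
    calc |u' t g| ≤ ∑ i, |v i * (par i (g : Sm) : (Fin 2 → ℝ) → ℝ) (γ t)| :=
          Finset.abs_sum_le_sum_abs _ _
      _ ≤ ∑ i, |v i| * ((s.card * K) * ‖u t‖) := by
          refine Finset.sum_le_sum (fun i _ => ?_)
          rw [abs_mul]
          exact mul_le_mul_of_nonneg_left (h1 i) (abs_nonneg _)
      _ = _ := by rw [← Finset.sum_mul]; ring
  have hu0 : u 0 = 0 := by
    funext g
    show ((g : Sm) : (Fin 2 → ℝ) → ℝ) (x0 + (0 : ℝ) • v) = 0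
    rw [zero_smul, add_zero]
    exact h0 g (hsI g g.2)
  have huc : ContinuousOn u (Set.Icc 0 1) := fun t _ => (hu t).continuousAt.continuousWithinAt
  have hfin := eq_zero_of_abs_deriv_le_mul_abs_self_of_eq_zero_right huc
    (fun t _ => (hu t).hasDerivWithinAt) hu0 hbound 1 (by simp)
  have := congrFun hfin g
  simpa [u, γ] using this

end Pool.Agent.W_MP_4b1b5d_h66
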