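import Pool.Agent.W_MP_4b1b5d_h66.Flat

set_option autoImplicit false

/-!
# The top degree part of a flat solution vanishes
-/

namespace Pool.Agent.W_MP_4b1b5d_h66

open MvPolynomial

/-- The gradient derivations `Y l = ∑ g k l ∂_k`. -/
noncomputable def YY (g : Fin 2 → Fin 2 → Sm) (l : Fin 2) : Derivation ℤ Sm Sm :=
  g 0 l • par 0 + g 1 l • par 1

lemma YY_apply (g : Fin 2 → Fin 2 → Sm) (l : Fin 2) (f : Sm) :
    YY g l f = g 0 l * par 0 f + g 1 l * par 1 f := rfl

/-- Index by booleans. -/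
noncomputable def YB (g : Fin 2 → Fin 2 → Sm) : Bool → Derivation ℤ Sm Sm :=
  fun b => cond b (YY g 1) (YY g 0)

lemma par_of_YY (g : Fin 2 → Fin 2 → Sm) (d : Sm)
    (hd : d * (g 0 0 * g 1 1 - g 0 1 * g 1 0) = 1) (f : Sm) :
    par 0 f = d * g 1 1 * YY g 0 f - d * g 1 0 * YY g 1 f ∧
    par 1 f = d * g 0 0 * YY g 1 f - d * g 0 1 * YY g 0 f := by
  rw [YY_apply, YY_apply]
  constructor
  · linear_combination (-(par 0 f)) * hd
  · linear_combination (-(par 1 f)) * hd

lemma comm_YB (g : Fin 2 → Fin 2 → Sm) (d : Sm)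
    (hd : d * (g 0 0 * g 1 1 - g 0 1 * g 1 0) = 1) : Comm (YB g) := by
  set c0 := YY g 1 (g 0 0) - YY g 0 (g 0 1) with hc0
  set c1 := YY g 1 (g 1 0) - YY g 0 (g 1 1) with hc1
  refine ⟨fun b => cond b (-(c0 * (d * g 1 0)) + c1 * (d * g 0 0))
    (c0 * (d * g 1 1) - c1 * (d * g 0 1)), ?_⟩
  intro h
  show YY g 1 (YY g 0 h) - YY g 0 (YY g 1 h)
    = (-(c0 * (d * g 1 0)) + c1 * (d * g 0 0)) * YY g 1 h
      + (c0 * (d * g 1 1) - c1 * (d * g 0 1)) * YY g 0 h
  obtain ⟨h0, h1⟩ := par_of_YY g d hd h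
  have e : YY g 1 (YY g 0 h) - YY g 0 (YY g 1 h) = c0 * par 0 h + c1 * par 1 h := by
    rw [hc0, hc1]
    simp only [YY_apply, map_add, Derivation.leibniz, smul_eq_mul]
    rw [par_comm 1 0 h]
    ring
  rw [e]
  linear_combination c0 * h0 + c1 * h1

lemma coeff_X_mul2 (i : Fin 2) (P : BB) (μ : Fin 2 →₀ ℕ) :
    coeff μ (X i * P) = if μ i = 0 then 0 else coeff (μ - Finsupp.single i 1) P := by
  rw [coeff_X_mul']
  by_cases h : μ i = 0
  · simp [h]
  · simp [h]

/-- The relation between the top degree coefficients. -/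
lemma top_relation (half : Sm) (hhalf : half + half = 1) (g : Fin 2 → Fin 2 → Sm)
    (hsym : ∀ i j, g i j = g j i) (U : Sm) (G : BB) (hbr : bra (HH half g U) G = 0) (n : ℕ)
    (hn : ∀ m : Fin 2 →₀ ℕ, n < m 0 + m 1 → coeff m G = 0) (J : Ideal Sm)
    (hJ : ∀ m : Fin 2 →₀ ℕ, m 0 + m 1 = n → coeff m G ∈ J) (μ : Fin 2 →₀ ℕ)
    (hμ : μ 0 + μ 1 = n + 1) :
    (if μ 0 = 0 then 0 else YY g 0 (coeff (μ - Finsupp.single 0 1) G))
      + (if μ 1 = 0 then 0 else YY g 1 (coeff (μ - Finsupp.single 1 1) G)) ∈ J := by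
  have h := congrArg (coeff μ) hbr
  rw [coeff_zero, bra, coeff_sum] at h
  have hA : ∀ k, coeff μ (del (Sum.inr k) (HH half g U) * del (Sum.inl k) G)
      = (if μ 0 = 0 then 0 else g k 0 * par k (coeff (μ - Finsupp.single 0 1) G))
        + (if μ 1 = 0 then 0 else g k 1 * par k (coeff (μ - Finsupp.single 1 1) G)) := by
    intro k
    rw [del_inr_HH half hhalf g hsym, del_inl, Fin.sum_univ_two, add_mul, coeff_add, mul_assoc,
      mul_assoc, coeff_C_mul, coeff_C_mul, coeff_X_mul2, coeff_X_mul2, coeff_cd, coeff_cd,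
      mul_ite, mul_ite, mul_zero, mul_zero]
  have hdeg : ∀ (k : Fin 2) (ν : Fin 2 →₀ ℕ), ν 0 + ν 1 + 1 = n → coeff ν (pderiv k G) ∈ J := by
    intro k ν hν
    rw [coeff_pderiv]
    apply Ideal.mul_mem_right
    apply hJ
    fin_cases k
    · simp; omega
    · simp; omega
  have hdeg2 : ∀ (k : Fin 2) (ν : Fin 2 →₀ ℕ), ν 0 + ν 1 = n + 1 → coeff ν (pderiv k G) = 0 := by
    intro k ν hν
    rw [coeff_pderiv, hn, zero_mul]
    fin_cases k
    · simp; omega
    · simp; omega
  have hB : ∀ k, coeff μ (del (Sum.inl k) (HH half g U) * del (Sum.inr k) G) ∈ J := by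
    intro k
    rw [del_inl_HH half hhalf, del_inr, add_mul, coeff_add, coeff_C_mul, hdeg2 k μ hμ, mul_zero,
      add_zero, mul_assoc, coeff_C_mul]
    apply Ideal.mul_mem_left
    rw [Finset.sum_mul, coeff_sum]
    refine Ideal.sum_mem _ (fun i _ => ?_)
    rw [Finset.sum_mul, coeff_sum]
    refine Ideal.sum_mem _ (fun j _ => ?_)
    rw [mul_assoc, coeff_C_mul, mul_assoc, coeff_X_mul2]
    apply Ideal.mul_mem_left
    split_ifs with hi
    · exact zero_mem _
    · rw [coeff_X_mul2]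
      split_ifs with hj
      · exact zero_mem _
      · apply hdeg
        fin_cases i <;> fin_cases j
        · simp at hi hj ⊢; omega
        · simp at hi hj ⊢; omega
        · simp at hi hj ⊢; omega
        · simp at hi hj ⊢; omega
  rw [Fin.sum_univ_two, coeff_sub, coeff_sub, hA, hA] at h
  have h2 : (if μ 0 = 0 then 0 else YY g 0 (coeff (μ - Finsupp.single 0 1) G))
      + (if μ 1 = 0 then 0 else YY g 1 (coeff (μ - Finsupp.single 1 1) G))
      = coeff μ (del (Sum.inl 0) (HH half g U) * del (Sum.inr 0) G)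
        + coeff μ (del (Sum.inl 1) (HH half g U) * del (Sum.inr 1) G) := by
    simp only [YY_apply]
    have e : ∀ (c : Prop) [Decidable c] (a b : Sm), (if c then 0 else a + b)
        = (if c then 0 else a) + (if c then 0 else b) := by
      intro c _ a b
      split_ifs
      · rw [add_zero]
      · rfl
    rw [e, e]
    linear_combination h
  rw [h2]
  exact add_mem (hB 0) (hB 1)

/-- The exponent `(n - a, a)`. -/
noncomputable def ex (n a : ℕ) : Fin 2 →₀ ℕ := Finsupp.single 0 (n - a) + Finsupp.single 1 a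

lemma ex_zero (n a : ℕ) : ex n a 0 = n - a := by simp [ex]

lemma ex_one (n a : ℕ) : ex n a 1 = a := by simp [ex]

lemma eq_ex {n : ℕ} {m : Fin 2 →₀ ℕ} (h : m 0 + m 1 = n) : m = ex n (m 1) := by
  ext i
  fin_cases i
  · show m 0 = ex n (m 1) 0
    rw [ex_zero]; omega
  · show m 1 = ex n (m 1) 1
    rw [ex_one]

theorem flat_zero (half : Sm) (hhalf : half + half = 1) (g : Fin 2 → Fin 2 → Sm)
    (hsym : ∀ i j, g i j = g j i) (d : Sm) (hd : d * (g 0 0 * g 1 1 - g 0 1 * g 1 0) = 1)
    (U : Sm) (G : BB) (hbr : bra (HH half g U) G = 0) (x0 : Fin 2 → ℝ)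
    (hfl : ∀ m, coeff m G ∈ Fl x0) : G = 0 := by
  by_contra hne
  have hsupp : G.support.Nonempty := by
    rw [Finset.nonempty_iff_ne_empty]
    intro h
    exact hne (MvPolynomial.support_eq_empty.mp h)
  obtain ⟨m0, hm0, hmax⟩ := Finset.exists_max_image G.support (fun m => m 0 + m 1) hsupp
  set n := m0 0 + m0 1 with hn
  have hn' : ∀ m : Fin 2 →₀ ℕ, n < m 0 + m 1 → coeff m G = 0 := by
    intro m hm
    by_contra hc
    have := hmax m (mem_support_iff.mpr hc)
    omega
  set k : ℕ → Sm := fun a => coeff (ex n a) G with hk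
  have hc := comm_YB g d hd
  have hJ : ∀ m : Fin 2 →₀ ℕ, m 0 + m 1 = n → coeff m G ∈ Dm (YB g) k n 0 := by
    intro m hm
    have h1 : m 1 ≤ n := by omega
    have h2 := word_mem (YB g) k n (w := []) (m := 0) (by simp) h1
    have h3 : word (YB g) [] (k (m 1)) = coeff m G := by
      show coeff (ex n (m 1)) G = coeff m G
      rw [← eq_ex hm]
    rw [h3] at h2
    exact h2
  have hrel := fun μ hμ => top_relation half hhalf g hsym U G hbr n hn' (Dm (YB g) k n 0) hJ μ hμ
  have hrel' : ∀ b ≤ n + 1, (if n + 1 - b = 0 then 0 else YY g 0 (k b))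
      + (if b = 0 then 0 else YY g 1 (k (b - 1))) ∈ Dm (YB g) k n 0 := by
    intro b hb
    have h := hrel (ex (n + 1) b) (by rw [ex_zero, ex_one]; omega)
    rw [ex_zero, ex_one] at h
    by_cases h1 : n + 1 - b = 0
    · by_cases h2 : b = 0
      · exfalso; omega
      · have e2 : ex (n + 1) b - Finsupp.single 1 1 = ex n (b - 1) := by
          ext i
          fin_cases i
          · show ex (n + 1) b 0 - (Finsupp.single 1 1 : Fin 2 →₀ ℕ) 0 = ex n (b - 1) 0
            rw [ex_zero, ex_zero]; simp; omega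
          · show ex (n + 1) b 1 - (Finsupp.single 1 1 : Fin 2 →₀ ℕ) 1 = ex n (b - 1) 1
            rw [ex_one, ex_one]; simp
        rw [e2] at h
        simp only [h1, h2, if_true, if_false] at h ⊢
        exact h
    · have e1 : ex (n + 1) b - Finsupp.single 0 1 = ex n b := by
        ext i
        fin_cases i
        · show ex (n + 1) b 0 - (Finsupp.single 0 1 : Fin 2 →₀ ℕ) 0 = ex n b 0
          rw [ex_zero, ex_zero]; simp; omega
        · show ex (n + 1) b 1 - (Finsupp.single 0 1 : Fin 2 →₀ ℕ) 1 = ex n b 1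
          rw [ex_one, ex_one]; simp
      rw [e1] at h
      by_cases h2 : b = 0
      · rw [if_neg h1, if_pos h2] at h ⊢
        exact h
      · have e2 : ex (n + 1) b - Finsupp.single 1 1 = ex n (b - 1) := by
          ext i
          fin_cases i
          · show ex (n + 1) b 0 - (Finsupp.single 1 1 : Fin 2 →₀ ℕ) 0 = ex n (b - 1) 0
            rw [ex_zero, ex_zero]; simp; omega
          · show ex (n + 1) b 1 - (Finsupp.single 1 1 : Fin 2 →₀ ℕ) 1 = ex n (b - 1) 1
            rw [ex_one, ex_one]; simp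
        rw [e2] at h
        simp only [h1, h2, if_false] at h ⊢
        exact h
  have h0 : YB g false (k 0) ∈ Dm (YB g) k n 0 := by
    have h := hrel' 0 (by omega)
    rw [if_neg (by omega), if_pos rfl, add_zero] at h
    exact h
  have hs : ∀ b < n, YB g false (k (b + 1)) + YB g true (k b) ∈ Dm (YB g) k n 0 := by
    intro b hb
    have h := hrel' (b + 1) (by omega)
    rw [if_neg (by omega), if_neg (by omega)] at h
    exact h
  have hlast : YB g true (k n) ∈ Dm (YB g) k n 0 := by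
    have h := hrel' (n + 1) (by omega)
    rw [if_pos (by omega), if_neg (by omega), zero_add] at h
    exact h
  have hst : ∀ (b : Bool) (h : Sm), h ∈ Dm (YB g) k n n → YB g b h ∈ Dm (YB g) k n n :=
    fun b h hh => Dm_stable k n hc h0 hs hlast hh b
  have hpar : ∀ i, ∀ h ∈ Dm (YB g) k n n, par i h ∈ Dm (YB g) k n n := by
    intro i h hh
    obtain ⟨p0, p1⟩ := par_of_YY g d hd h
    have y0 : YY g 0 h ∈ Dm (YB g) k n n := hst false h hh
    have y1 : YY g 1 h ∈ Dm (YB g) k n n := hst true h hh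
    fin_cases i
    · show par 0 h ∈ _
      rw [p0]
      exact sub_mem (Ideal.mul_mem_left _ _ y0) (Ideal.mul_mem_left _ _ y1)
    · show par 1 h ∈ _
      rw [p1]
      exact sub_mem (Ideal.mul_mem_left _ _ y1) (Ideal.mul_mem_left _ _ y0)
  have hle : Dm (YB g) k n n ≤ Fl x0 := by
    apply Dm_le
    · intro a _
      exact hfl _
    · intro b x hx
      cases b
      · show YY g 0 x ∈ Fl x0
        rw [YY_apply]
        exact add_mem (Ideal.mul_mem_left _ _ (Fl_par hx 0)) (Ideal.mul_mem_left _ _ (Fl_par hx 1))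
      · show YY g 1 x ∈ Fl x0
        rw [YY_apply]
        exact add_mem (Ideal.mul_mem_left _ _ (Fl_par hx 0)) (Ideal.mul_mem_left _ _ (Fl_par hx 1))
  have hzero := ideal_zero (Dm (YB g) k n n) (Dm_fg k n n) hpar x0 (fun h hh => Fl_zero (hle hh))
  have hm0' : coeff m0 G ∈ Dm (YB g) k n n := Dm_mono (YB g) k n (Nat.zero_le n) (hJ m0 rfl)
  exact (mem_support_iff.mp hm0) (hzero _ hm0')

lemma rev_rev (P : BB) : rev (rev P) = P := by
  ext m : 1
  rw [coeff_rev, coeff_rev, ← mul_assoc, ← pow_add]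
  have : Even (m 0 + m 1 + (m 0 + m 1)) := ⟨_, rfl⟩
  rw [this.neg_one_pow, one_mul]

lemma bra_sub (H F G : BB) : bra H (F - G) = bra H F - bra H G := by
  rw [bra, bra, bra, ← Finset.sum_sub_distrib]
  refine Finset.sum_congr rfl (fun k _ => ?_)
  rw [map_sub, map_sub]
  ring

/-- The core theorem. -/
theorem core (half : Sm) (hhalf : half + half = 1) (g : Fin 2 → Fin 2 → Sm)
    (hsym : ∀ i j, g i j = g j i) (d : Sm) (hd : d * (g 0 0 * g 1 1 - g 0 1 * g 1 0) = 1)
    (U : Sm) (F : BB) (hbr : bra (HH half g U) F = 0) (x0 : Fin 2 → ℝ)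
    (hc : ∀ k, (par k U : (Fin 2 → ℝ) → ℝ) x0 = 0)
    (hres : NonRes (Matrix.of (fun k l => (((par l (par k U) : (Fin 2 → ℝ) → ℝ) x0 : ℝ) : ℂ)) *
      Matrix.of (fun k l => (((g k l : (Fin 2 → ℝ) → ℝ) x0 : ℝ) : ℂ)))) : rev F = F := by
  set G := F - rev F with hG
  have hb : bra (HH half g U) G = 0 := by
    rw [hG, bra_sub, bra_rev, hbr, map_zero, neg_zero, sub_zero]
  have hr : rev G = - G := by
    rw [hG, map_sub, rev_rev, neg_sub]
  have hj := jets_zero del (ev0 x0) (rev : BB →+* BB) del_comm (ev0_rev x0)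
    (fun k b => cd_rev (par k) b) (fun k b => pderiv_rev k b) _ _ hres (HH half g U) G
    (ev0_del_HH half hhalf g hsym U x0 hc)
    (fun k l => ev0_rr half hhalf g hsym U x0 k l) (fun k l => ev0_ll half hhalf g U x0 k l)
    (fun k l => ev0_lr half hhalf g hsym U x0 k l) hb hr
  have hz : Zr x0 G := by
    intro w
    have := words_zero del (ev0 x0) del_comm G hj w.reverse
    rw [List.foldr_reverse] at this
    exact this
  have := flat_zero half hhalf g hsym d hd U G hb x0 (fun m => hz.coeff_mem m)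
  rw [hG, sub_eq_zero] at this
  exact this.symm

end Pool.Agent.W_MP_4b1b5d_h66
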