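import Pool.Agent.W_MP_4b1b5d_h66.Top

set_option autoImplicit false

/-!
# Translation between functions with polynomial values and polynomials with smooth coefficients
-/

namespace Pool.Agent.W_MP_4b1b5d_h66

open MvPolynomial

/-- Evaluation of a smooth function at a point. -/
noncomputable def evs (x : Fin 2 → ℝ) : Sm →+* ℝ :=
  (Pi.evalRingHom (fun _ : Fin 2 → ℝ => ℝ) x).comp Sm.subtype

lemma evs_apply (x : Fin 2 → ℝ) (f : Sm) : evs x f = (f : (Fin 2 → ℝ) → ℝ) x := rfl

/-- Evaluation at a phase space point. -/
noncomputable def E (x p : Fin 2 → ℝ) : BB →+* ℝ := eval₂Hom (evs x) p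

lemma E_C (x p : Fin 2 → ℝ) (a : Sm) : E x p (C a) = (a : (Fin 2 → ℝ) → ℝ) x := by
  rw [E, coe_eval₂Hom, eval₂_C, evs_apply]

lemma E_X (x p : Fin 2 → ℝ) (i : Fin 2) : E x p (X i) = p i := by
  rw [E, coe_eval₂Hom, eval₂_X]

lemma E_eq (x p : Fin 2 → ℝ) (P : BB) : E x p P = eval p (map (evs x) P) := by
  rw [E, coe_eval₂Hom, ← eval₂_eq_eval_map]

lemma E_pderiv (x p : Fin 2 → ℝ) (i : Fin 2) (P : BB) :
    HasDerivAt (fun t => E x (Function.update p i t) P) (E x p (pderiv i P)) (p i) := by
  induction P using MvPolynomial.induction_on with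
  | C a =>
    simp only [E_C, pderiv_C, map_zero]
    exact hasDerivAt_const _ _
  | add P Q hP hQ =>
    simp only [map_add]
    exact hP.add hQ
  | mul_X P j hP =>
    have hX : HasDerivAt (fun t => E x (Function.update p i t) (X j : BB))
        (E x p (pderiv i (X j))) (p i) := by
      simp only [E_X]
      by_cases h : j = i
      · subst h
        simp only [Function.update_self, pderiv_X_self, map_one]
        exact hasDerivAt_id _
      · simp only [Function.update_of_ne h, pderiv_X_of_ne h, map_zero]
        exact hasDerivAt_const _ _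
    have h := hP.mul hX
    simp only [Function.update_eq_self] at h
    have e : E x p (pderiv i (P * X j))
        = E x p (pderiv i P) * E x p (X j) + E x p P * E x p (pderiv i (X j)) := by
      rw [Derivation.leibniz, map_add, smul_eq_mul, smul_eq_mul, map_mul, map_mul]
      ring
    rw [e]
    refine h.congr_of_eventuallyEq (Filter.Eventually.of_forall (fun t => ?_))
    exact map_mul _ _ _

lemma E_cd (x p : Fin 2 → ℝ) (i : Fin 2) (P : BB) :
    HasDerivAt (fun t => E (Function.update x i t) p P) (E x p (cd (par i) P)) (x i) := by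
  induction P using MvPolynomial.induction_on with
  | C a =>
    simp only [E_C, cd_C]
    rw [par_apply]
    have h1 : HasFDerivAt (a : (Fin 2 → ℝ) → ℝ)
        (fderiv ℝ (a : (Fin 2 → ℝ) → ℝ) (Function.update x i (x i)))
        (Function.update x i (x i)) := ((sm_diff a) _).hasFDerivAt
    have h2 := h1.comp_hasDerivAt (x i) (hasDerivAt_update x i (x i))
    rw [Function.update_eq_self] at h2
    exact h2
  | add P Q hP hQ =>
    simp only [map_add]
    exact hP.add hQ
  | mul_X P j hP =>
    have hX : HasDerivAt (fun t => E (Function.update x i t) p (X j : BB))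
        (E x p (cd (par i) (X j))) (x i) := by
      simp only [E_X, cd_X, map_zero]
      exact hasDerivAt_const _ _
    have h := hP.mul hX
    simp only [Function.update_eq_self] at h
    have e : E x p (cd (par i) (P * X j))
        = E x p (cd (par i) P) * E x p (X j) + E x p P * E x p (cd (par i) (X j)) := by
      rw [Derivation.leibniz, map_add, smul_eq_mul, smul_eq_mul, map_mul, map_mul]
      ring
    rw [e]
    refine h.congr_of_eventuallyEq (Filter.Eventually.of_forall (fun t => ?_))
    exact map_mul _ _ _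

lemma E_ext (P : BB) (h : ∀ x p, E x p P = 0) : P = 0 := by
  ext m : 1
  apply Subtype.ext
  funext x
  have h1 : map (evs x) P = 0 := by
    apply MvPolynomial.funext
    intro p
    rw [← E_eq, h, map_zero]
  have h2 := congrArg (coeff m) h1
  rw [coeff_map, coeff_zero, evs_apply] at h2
  rw [h2]
  rfl

lemma E_rev (x p : Fin 2 → ℝ) (P : BB) : E x p (rev P) = E x (-p) P := by
  induction P using MvPolynomial.induction_on with
  | C a =>
    have : rev (C a) = C a := by
      rw [← MvPolynomial.algebraMap_eq, AlgHom.commutes]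
    rw [this, E_C, E_C]
  | add P Q hP hQ => rw [map_add, map_add, map_add, hP, hQ]
  | mul_X P j hP =>
    have : rev (X j) = - X j := by rw [rev, aeval_X]
    rw [map_mul, map_mul, map_mul, hP, this, map_neg, E_X, E_X]
    rfl

/-- A function with polynomial values, smooth coefficients and bounded degree, as an element
of `BB`. -/
lemma exists_BB (F : (Fin 2 → ℝ) → MvPolynomial (Fin 2) ℝ)
    (hF : ∀ m, ContDiff ℝ (⊤ : ℕ∞) (fun x => (F x).coeff m)) (N : ℕ)
    (hN : ∀ x, (F x).totalDegree ≤ N) : ∃ P : BB, ∀ x, map (evs x) P = F x := by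
  classical
  let T : Finset (Fin 2 →₀ ℕ) := (Finset.range (N + 1) ×ˢ Finset.range (N + 1)).image
    (fun q => Finsupp.single 0 q.1 + Finsupp.single 1 q.2)
  have hT : ∀ m : Fin 2 →₀ ℕ, m ∉ T → ∀ x, coeff m (F x) = 0 := by
    intro m hm x
    by_contra hc
    apply hm
    have h1 : (m.sum fun _ e => e) ≤ N := (le_totalDegree (mem_support_iff.mpr hc)).trans (hN x)
    rw [Finsupp.sum_fintype _ _ (fun _ => rfl), Fin.sum_univ_two] at h1
    refine Finset.mem_image.mpr ⟨(m 0, m 1), ?_, ?_⟩
    · simp only [Finset.mem_product, Finset.mem_range]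
      omega
    · ext i
      fin_cases i <;> simp
  let c : (Fin 2 →₀ ℕ) → Sm := fun m => ⟨fun x => (F x).coeff m, hF m⟩
  refine ⟨∑ m ∈ T, monomial m (c m), ?_⟩
  intro x
  ext m
  rw [coeff_map, coeff_sum]
  simp only [coeff_monomial]
  rw [Finset.sum_ite_eq']
  split_ifs with h
  · rfl
  · rw [map_zero, hT m h x]

end Pool.Agent.W_MP_4b1b5d_h66
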